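import Mathlib
import Pool.Agent.J4.H38.SR.Cnt

/-! Counting the integers `n ≤ N` for which `n + z` has no prime factor `≤ y₀` and all `n + t`, `t ∈ T`, have no prime factor
`≤ y`, where `y ≤ y₀`; the relative error is exponentially small in `log N / log y₀`. -/

set_option autoImplicit false

namespace Pool.Agent.J4.H57.DS

open Finset
open Pool.Agent.Y822
open Pool.Agent.J4.H38.SR
open Pool.Agent.W41 (JJ)
open Pool.Agent.H373R2.T7 (pz Vz mem_pz)
open Pool.Agent.H387R2.Uni (nuT Adm locT CT)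

/-- the density of the mixed condition -/
noncomputable def Vmix (y y₀ z : ℕ) (T : Finset ℕ) : ℝ :=
  VT y (insert z T) * ∏ p ∈ (pz y₀).filter (fun p => y < p), (1 - 1 / (p : ℝ))

lemma Vz_split {y y₀ : ℕ} (h : y ≤ y₀) :
    Vz y₀ = Vz y * ∏ p ∈ (pz y₀).filter (fun p => y < p), (1 - 1 / (p : ℝ)) := by
  unfold Vz
  rw [← prod_filter_mul_prod_filter_not (pz y₀) (fun p => p ≤ y)]
  congr 1
  · refine prod_congr ?_ fun _ _ => rfl
    ext p
    rw [mem_filter, mem_pz, mem_pz]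
    constructor
    · rintro ⟨⟨h1, h2⟩, h3⟩
      exact ⟨h3, h2⟩
    · rintro ⟨h1, h2⟩
      exact ⟨⟨h1.trans h, h2⟩, h1⟩
  · refine prod_congr ?_ fun _ _ => rfl
    refine filter_congr fun p _ => ?_
    exact not_le

lemma Vmix_eq {y y₀ : ℕ} (h : y ≤ y₀) (z : ℕ) (T : Finset ℕ) :
    Vmix y y₀ z T = Vz y₀ * (VT y (insert z T) / Vz y) := by
  unfold Vmix
  rw [Vz_split h]
  have := (Vz_pos' y).ne'
  field_simp

/-- **the mixed count** -/
theorem cntM (m : ℕ) : ∃ C0 K0 : ℕ, 1 ≤ C0 ∧ 1 ≤ K0 ∧ ∀ b : ℕ, C0 ≤ b → ∀ y₀ : ℕ, 2 ≤ y₀ → ∀ y ≤ y₀,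
    ∀ T : Finset ℕ, T.card ≤ m → ∀ z N : ℕ,
    |∑ n ∈ Icc 1 N, ro y₀ (n + z) * rT T y n - N * Vmix y y₀ z T| ≤
      (1 / 2) ^ b * (N * Vmix y y₀ z T) + Ad C0 K0 b y₀ := by
  classical
  obtain ⟨C0, K0, hC0, hK0, hfl⟩ := Pool.Agent.TH892.SW.fl_set (m + 1)
  refine ⟨C0, K0, hC0, hK0, fun b hb y₀ hy₀ y hy T hTm z N => ?_⟩
  obtain ⟨R, hR⟩ : ∃ R : ℕ → ℕ → Prop, ∀ p x, R p x ↔ (p ∣ x + z ∨ (p ≤ y ∧ ∃ t ∈ T, p ∣ x + t)) :=
    ⟨_, fun _ _ => Iff.rfl⟩
  have hTm1 : (insert z T).card ≤ m + 1 := (card_insert_le _ _).trans (by omega)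
  have hcard : ∀ p ∈ pz y₀, ((range p).filter (fun x => R p x)).card =
      if p ≤ y then fT (insert z T) p else 1 := by
    intro p hp
    have hpp := (mem_pz.1 hp).2
    split_ifs with h
    · unfold fT
      congr 1
      refine filter_congr fun r _ => ?_
      rw [hR]
      constructor
      · rintro (h1 | ⟨_, t, ht, h1⟩)
        · exact ⟨z, mem_insert_self _ _, h1⟩
        · exact ⟨t, mem_insert_of_mem ht, h1⟩
      · rintro ⟨t, ht, h1⟩
        rcases mem_insert.1 ht with rfl | ht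
        · exact Or.inl h1
        · exact Or.inr ⟨h, t, ht, h1⟩
    · have h1 : ((range p).filter (fun x => R p x)) = (range p).filter (fun r => ∃ t ∈ ({z} : Finset ℕ), p ∣ r + t) := by
        refine filter_congr fun r _ => ?_
        rw [hR]
        constructor
        · rintro (h1 | ⟨h2, _⟩)
          · exact ⟨z, mem_singleton_self _, h1⟩
          · exact absurd h2 h
        · rintro ⟨t, ht, h1⟩
          rw [mem_singleton.1 ht] at h1
          exact Or.inl h1
      rw [h1]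
      have h2 := fT_eq ({z} : Finset ℕ) hpp.pos
      unfold fT at h2
      rw [h2]
      unfold nuT
      rw [image_singleton, card_singleton]
  have hPz : ∀ p ∈ pz y₀, p.Prime ∧ p ≤ y₀ ∧ ((range p).filter (fun a => R p a)).card ≤ m + 1 := by
    intro p hp
    refine ⟨(mem_pz.1 hp).2, (mem_pz.1 hp).1, ?_⟩
    rw [hcard p hp]
    split_ifs with h
    · rw [fT_eq _ (mem_pz.1 hp).2.pos]
      exact (nuT_le_card _ p).trans hTm1
    · omega
  have key := hfl b hb y₀ hy₀ N (pz y₀) R hPz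
  have hprod : ∏ p ∈ pz y₀, (1 - (((range p).filter (fun a => R p a)).card : ℝ) / p) = Vmix y y₀ z T := by
    unfold Vmix VT
    rw [← prod_filter_mul_prod_filter_not (pz y₀) (fun p => p ≤ y)]
    congr 1
    · rw [pz_eq]
      have e : (pz y₀).filter (fun p => p ≤ y) = pz y := by
        ext p
        rw [mem_filter, mem_pz, mem_pz]
        constructor
        · rintro ⟨⟨h1, h2⟩, h3⟩
          exact ⟨h3, h2⟩
        · rintro ⟨h1, h2⟩
          exact ⟨⟨h1.trans hy, h2⟩, h1⟩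
      rw [← e]
      refine prod_congr rfl fun p hp => ?_
      rw [mem_filter] at hp
      rw [hcard p hp.1, if_pos hp.2]
    · have e : (pz y₀).filter (fun p => ¬ p ≤ y) = (pz y₀).filter (fun p => y < p) :=
        filter_congr fun p _ => not_le
      rw [e]
      refine prod_congr rfl fun p hp => ?_
      rw [mem_filter] at hp
      rw [hcard p hp.1, if_neg (not_le.2 hp.2), Nat.cast_one]
  rw [hprod] at key
  have hcount : ∑ n ∈ Icc 1 N, ro y₀ (n + z) * rT T y n =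
      (((Icc 1 N).filter (fun n => ∀ p ∈ pz y₀, ¬ R p (n % p))).card : ℝ) := by
    rw [card_filter]
    push_cast
    refine sum_congr rfl fun n _ => ?_
    have hmod : ∀ p t : ℕ, p ∣ n % p + t ↔ p ∣ n + t := by
      intro p t
      constructor
      · intro h
        exact (Nat.modEq_zero_iff_dvd).1 ((Nat.ModEq.add_right t (Nat.mod_modEq n p).symm).trans
          ((Nat.modEq_zero_iff_dvd).2 h))
      · intro h
        exact (Nat.modEq_zero_iff_dvd).1 ((Nat.ModEq.add_right t (Nat.mod_modEq n p)).trans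
          ((Nat.modEq_zero_iff_dvd).2 h))
    have hiff : (∀ p ∈ pz y₀, ¬ R p (n % p)) ↔ (Ro y₀ (n + z) ∧ ∀ t ∈ T, Ro y (n + t)) := by
      constructor
      · intro h
        refine ⟨fun p hp hpy hd => ?_, fun t ht p hp hpy hd => ?_⟩
        · exact h p (mem_pz.2 ⟨hpy, hp⟩) ((hR _ _).2 (Or.inl ((hmod p z).2 hd)))
        · exact h p (mem_pz.2 ⟨hpy.trans hy, hp⟩) ((hR _ _).2 (Or.inr ⟨hpy, t, ht, (hmod p t).2 hd⟩))
      · rintro ⟨h1, h2⟩ p hp hRp
        have hpp := mem_pz.1 hp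
        rcases (hR _ _).1 hRp with h3 | ⟨h3, t, ht, h4⟩
        · exact h1 p hpp.2 hpp.1 ((hmod p z).1 h3)
        · exact h2 t ht p hpp.2 h3 ((hmod p t).1 h4)
    rw [rT_eq]
    unfold ro
    by_cases h1 : Ro y₀ (n + z) <;> by_cases h2 : ∀ t ∈ T, Ro y (n + t)
    · rw [if_pos h1, if_pos h2, if_pos (hiff.2 ⟨h1, h2⟩), one_mul]
    · rw [if_pos h1, if_neg h2, if_neg (fun h => h2 (hiff.1 h).2), mul_zero]
    · rw [if_neg h1, if_neg (fun h => h1 (hiff.1 h).1), zero_mul]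
    · rw [if_neg h1, if_neg (fun h => h1 (hiff.1 h).1), zero_mul]
  rw [hcount]
  unfold Ad
  exact key

end Pool.Agent.J4.H57.DS
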