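import Mathlib
import Pool.Agent.J4.H57.DS.Mix
import Pool.Agent.J4.H38.DV.All
import Pool.Agent.J4.H31.DV.TStepD
import Pool.Agent.J4.H38.SR2.Int1
import Pool.Agent.J4.H38.SR.Avg

/-! Dense sets of primes in short intervals: the rough numbers. For EVERY interval `(z, z + N]` and every set `P` of at least
`δ N / log N` primes in it, for almost all sets `D` of `k` multiples of `W` in `[1, H]` about as many elements `p` of `P` as
expected have all `p + t`, `t ∈ D`, free of prime factors up to a small power of `N`. The majorant of the primes is the indicator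
function of the integers without prime factors up to a (fixed) small power of `N`. -/

set_option autoImplicit false

namespace Pool.Agent.J4.H57.DS

open Finset Filter
open Pool.Agent.Y822
open Pool.Agent.J4.H38.SR
open Pool.Agent.J4.H38.SR2
open Pool.Agent.J4.H38.DV
open Pool.Agent.H373R2.T7 (pz Vz mem_pz)
open Pool.Agent.H387R2.Uni (nuT)

/-- the indicator function of `m + z ∈ P` -/
noncomputable def fS (P : Finset ℕ) (z m : ℕ) : ℝ := if m + z ∈ P then 1 else 0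

lemma fS_bd {P : Finset ℕ} {z N y₀ : ℕ} (hP : P ⊆ (Ioc z (z + N)).filter Nat.Prime) (hy : y₀ ≤ z) (m : ℕ) :
    0 ≤ fS P z m ∧ fS P z m ≤ ro y₀ (m + z) := by
  unfold fS
  split_ifs with h
  · refine ⟨zero_le_one, ?_⟩
    have h1 := mem_filter.1 (hP h)
    have h2 := mem_Ioc.1 h1.1
    unfold ro
    rw [if_pos]
    intro p hp hpy hpd
    have h3 := (Nat.prime_dvd_prime_iff_eq hp h1.2).1 hpd
    omega
  · exact ⟨le_rfl, ro_nonneg _ _⟩

lemma Ft_fS {P : Finset ℕ} {z N : ℕ} (hP : P ⊆ (Ioc z (z + N)).filter Nat.Prime) (y : ℕ) (D : Finset ℕ) :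
    Ft (fS P z) N y (sh z D) = ∑ p ∈ P, ∏ t ∈ D, ro y (p + t) := by
  classical
  have hm : ∀ p ∈ P, z < p ∧ p ≤ z + N := fun p hp => mem_Ioc.1 (mem_filter.1 (hP hp)).1
  have h1 : Ft (fS P z) N y (sh z D) = ∑ m ∈ (Icc 1 N).filter (fun m => m + z ∈ P), ∏ t ∈ D, ro y (m + z + t) := by
    unfold Ft
    rw [sum_filter]
    refine sum_congr rfl fun m _ => ?_
    unfold fS sh
    rw [prod_image (fun a _ b _ h => by simpa using h)]
    split_ifs
    · rw [one_mul]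
      refine prod_congr rfl fun t _ => ?_
      congr 1
      ring
    · rw [zero_mul]
  rw [h1]
  refine sum_bij (fun m _ => m + z) (fun m hm' => (mem_filter.1 hm').2) (fun a _ b _ h => by simpa using h)
    (fun p hp => ?_) (fun m _ => rfl)
  have h2 := hm p hp
  refine ⟨p - z, ?_, by omega⟩
  rw [mem_filter, mem_Icc, show p - z + z = p by omega]
  exact ⟨⟨by omega, by omega⟩, hp⟩

lemma dens_sh (z y : ℕ) {S : Finset ℕ} (h0 : 0 ∉ S) :
    VT y (insert z (sh z S)) / Vz y = Pq (QW (sh 0 S)) y := by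
  classical
  have e1 : insert z (sh z S) = sh z (pat S) := by
    unfold sh pat
    rw [image_insert, zero_add]
  have e2 : sh 0 S = S := by
    unfold sh
    simp
  have h1 := prod_rhoW h0 S.card rfl y
  have h2 := VT_eq y (pat S)
  rw [card_pat h0] at h2
  rw [e1, VT_sh, h2, e2]
  unfold Pq
  rw [h1, pow_succ]
  have := (Vz_pos' y).ne'
  field_simp

lemma exb (C0 : ℕ) {a : ℝ} (ha : 0 < a) : ∃ b : ℕ, C0 ≤ b ∧
    (1 / 2 : ℝ) ^ b ≤ (a * ((1 / 2) / (4 * C0 * b + 1))) ^ 2 := by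
  have h1 : Tendsto (fun b : ℕ => (b : ℝ) ^ 2 * (1 / 2 : ℝ) ^ b) atTop (nhds 0) :=
    tendsto_pow_const_mul_const_pow_of_abs_lt_one 2 (by norm_num [abs_of_pos])
  have h2 : ∀ᶠ b : ℕ in atTop, (b : ℝ) ^ 2 * (1 / 2 : ℝ) ^ b < (a / (2 * (4 * C0 + 1))) ^ 2 :=
    h1.eventually_lt tendsto_const_nhds (by positivity)
  obtain ⟨b, hb, hb2⟩ := (h2.and (eventually_ge_atTop (C0 + 1))).exists
  refine ⟨b, by omega, ?_⟩
  have hb1 : (1 : ℝ) ≤ b := by exact_mod_cast (by omega : 1 ≤ b)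
  have hC : (0 : ℝ) ≤ C0 := Nat.cast_nonneg _
  have h3 : 4 * (C0 : ℝ) * b + 1 ≤ (4 * C0 + 1) * b := by nlinarith
  have h4 : a / (2 * (4 * C0 + 1)) / b ≤ a * ((1 / 2) / (4 * C0 * b + 1)) := by
    rw [div_div, mul_div_assoc', div_le_div_iff₀ (by positivity) (by positivity)]
    nlinarith
  have h5 : (a / (2 * (4 * C0 + 1)) / b) ^ 2 ≤ (a * ((1 / 2) / (4 * C0 * b + 1))) ^ 2 :=
    pow_le_pow_left₀ (by positivity) h4 2
  refine le_trans ?_ h5
  have e : (a / (2 * (4 * (C0 : ℝ) + 1)) / b) ^ 2 = (a / (2 * (4 * C0 + 1))) ^ 2 / (b : ℝ) ^ 2 := div_pow _ _ _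
  rw [e, le_div_iff₀ (by positivity)]
  linarith

/-- **the rough numbers** -/
theorem baseS (k : ℕ) (δ ε : ℝ) (hδ : 0 < δ) (hε : 0 < ε) : ∃ w : ℕ, 2 ≤ w ∧ ∃ κ₀ : ℝ, 0 < κ₀ ∧ ∀ κ : ℝ, 0 < κ → κ ≤ κ₀ →
    ∃ Λ : ℝ, 0 < Λ ∧ ∀ᶠ N : ℕ in atTop, ∀ y : ℕ, (y : ℝ) < (N : ℝ) ^ κ → (N : ℝ) ^ κ ≤ y + 1 → ∀ z : ℕ, N ≤ z →
    ∀ H : ℕ, Λ * Real.log N ≤ H → H ≤ N → ∀ P ⊆ (Ioc z (z + N)).filter Nat.Prime, δ * (N / Real.log N) ≤ P.card →
    ∀ Bad : Finset (Finset ℕ), (∀ D ∈ Bad, D ∈ (AW w 0 H).powersetCard k ∧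
      ∑ p ∈ P, ∏ t ∈ D, ro y (p + t) < 1 / 8 * (P.card * GG w y ^ k)) →
    (Bad.card : ℝ) ≤ ε * ((AW w 0 H).card : ℝ) ^ k := by
  classical
  choose Cj hCj hstep' using Pool.Agent.J4.H31.DV.stepDT
  obtain ⟨C, hC⟩ : ∃ C : ℝ, C = 1 + ∑ j ∈ range k, Cj j := ⟨_, rfl⟩
  have hC1 : ∀ j < k, Cj j ≤ C := by
    intro j hj
    have h1 : Cj j ≤ ∑ j ∈ range k, Cj j :=
      single_le_sum (f := Cj) (fun i _ => (hCj i).le) (mem_range.2 hj)
    rw [hC]
    linarith
  have hCp : 0 < C := by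
    have h1 : 0 ≤ ∑ j ∈ range k, Cj j := sum_nonneg fun i _ => (hCj i).le
    rw [hC]
    linarith
  obtain ⟨C0, K0, hC01, hK01, hcnt⟩ := cntM (k + 1)
  obtain ⟨c0, hc0, hV⟩ := Vz_sharp
  -- the parameters
  obtain ⟨a, ha⟩ : ∃ a : ℝ, a = min 1 (7 * δ * ε / (16 * (k + 1) * C)) := ⟨_, rfl⟩
  have ha0 : 0 < a := by rw [ha]; exact lt_min one_pos (by positivity)
  have ha1 : a ≤ 1 := by rw [ha]; exact min_le_left _ _
  have ha2 : a ≤ 7 * δ * ε / (16 * (k + 1) * C) := by rw [ha]; exact min_le_right _ _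
  obtain ⟨b, hb, hbη⟩ := exb C0 ha0
  obtain ⟨κ0, hκ0⟩ : ∃ κ0 : ℝ, κ0 = (1 / 2) / (4 * C0 * b + 1) := ⟨_, rfl⟩
  have hκ00 : 0 < κ0 := by rw [hκ0]; positivity
  have hκσ : κ0 * (4 * C0 * b + 1) ≤ 1 / 2 := by rw [hκ0]; field_simp; exact le_rfl
  have hκ01 : κ0 ≤ 1 / 2 := by
    have h1 : (1 : ℝ) ≤ 4 * C0 * b + 1 := by
      have : (0 : ℝ) ≤ 4 * C0 * b := by positivity
      linarith
    nlinarith
  obtain ⟨s, hs⟩ : ∃ s : ℝ, s = a * κ0 := ⟨_, rfl⟩
  have hs0 : 0 < s := by rw [hs]; positivity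
  have hs1 : s ≤ 1 := by rw [hs]; nlinarith
  obtain ⟨η, hη⟩ : ∃ η : ℝ, η = s ^ 2 := ⟨_, rfl⟩
  have hη0 : 0 < η := by rw [hη]; positivity
  have hη1 : η ≤ 1 := by rw [hη]; exact pow_le_one₀ hs0.le hs1
  have hsq : Real.sqrt η = s := by rw [hη]; exact Real.sqrt_sq hs0.le
  rw [← hκ0, ← hs, ← hη] at hbη
  obtain ⟨w, hw2, hw⟩ := Pool.Agent.J4.H55.DV.ravT2 (k + 1) η hη0
  obtain ⟨W, hW⟩ : ∃ W : ℕ, W = ∏ p ∈ pz w, p := ⟨_, rfl⟩
  have hW1 : 1 ≤ W := by
    rw [hW]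
    exact Nat.one_le_iff_ne_zero.2 (prod_ne_zero_iff.2 fun p hp => (mem_pz.1 hp).2.ne_zero)
  have hWr : (1 : ℝ) ≤ W := by exact_mod_cast hW1
  refine ⟨w, hw2, κ0, hκ00, fun κ hκ hκ1 => ?_⟩
  refine ⟨W * (2 * κ / (c0 * η) + 1), by positivity, ?_⟩
  obtain ⟨τ, hτ⟩ : ∃ τ : ℝ, τ = η * (c0 / κ0) * (c0 / (2 * κ)) ^ (k + 1) := ⟨_, rfl⟩
  have hτ0 : 0 < τ := by rw [hτ]; positivity
  have hlim : Tendsto (fun N : ℕ => Real.log (N : ℝ)) atTop atTop :=
    Real.tendsto_log_atTop.comp (tendsto_natCast_atTop_atTop (R := ℝ))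
  have hpow : Tendsto (fun N : ℕ => (N : ℝ) ^ κ) atTop atTop :=
    (tendsto_rpow_atTop hκ).comp (tendsto_natCast_atTop_atTop (R := ℝ))
  filter_upwards [hw w le_rfl, ev_small (k + 2) (by norm_num : (0 : ℝ) < 1 / 2) (2 + 2 * K0) hτ0,
    hlim.eventually_ge_atTop 1, hlim.eventually_ge_atTop (5 * (2 / κ0)),
    hpow.eventually_ge_atTop (((max w 3 : ℕ) : ℝ) + 1), eventually_ge_atTop 2]
    with N hN1 hN2 hN4 hN5 hN6 hN7
  intro y hy1 hy2 z hz H hH1 hH2 P hP hPc Bad hBad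
  -- facts on `y`
  have hymax : max w 3 ≤ y := by
    have h1 : ((max w 3 : ℕ) : ℝ) ≤ y := by linarith
    exact_mod_cast h1
  have hyw : w ≤ y := (le_max_left _ _).trans hymax
  have hy3 : 3 ≤ y := (le_max_right _ _).trans hymax
  have hNr : (1 : ℝ) < N := by exact_mod_cast (by omega : 1 < N)
  have hN0 : (0 : ℝ) < N := by linarith
  have hL0 : 0 < Real.log N := by linarith
  have hlogy : Real.log y ≤ κ * Real.log N := by
    rw [← Real.log_rpow hN0]
    exact Real.log_le_log (by exact_mod_cast (by omega : 0 < y)) hy1.le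
  have hlogy0 : 0 < Real.log y := Real.log_pos (by exact_mod_cast (by omega : 1 < y))
  -- the majorant
  obtain ⟨y₀, hy₀⟩ : ∃ y₀ : ℕ, y₀ + 1 = ⌈(N : ℝ) ^ κ0⌉₊ := by
    have : 0 < ⌈(N : ℝ) ^ κ0⌉₊ := Nat.ceil_pos.2 (by positivity)
    exact ⟨⌈(N : ℝ) ^ κ0⌉₊ - 1, by omega⟩
  have hy₀a : (y₀ : ℝ) < (N : ℝ) ^ κ0 := Nat.lt_ceil.1 (by omega)
  have hy₀b : (N : ℝ) ^ κ0 ≤ y₀ + 1 := by
    have := Nat.le_ceil ((N : ℝ) ^ κ0)
    rw [← hy₀] at this
    exact_mod_cast this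
  have hyy₀ : y ≤ y₀ := by
    have h1 : (y : ℝ) < (N : ℝ) ^ κ0 := hy1.trans_le (Real.rpow_le_rpow_of_exponent_le hNr.le hκ1)
    have h2 : y < ⌈(N : ℝ) ^ κ0⌉₊ := Nat.lt_ceil.2 h1
    omega
  have hy₀z : y₀ ≤ z := by
    have h1 : (y₀ : ℝ) ≤ N := by
      calc (y₀ : ℝ) ≤ (N : ℝ) ^ κ0 := hy₀a.le
        _ ≤ (N : ℝ) ^ (1 : ℝ) := Real.rpow_le_rpow_of_exponent_le hNr.le (by linarith)
        _ = N := Real.rpow_one _
    have h2 : y₀ ≤ N := by exact_mod_cast h1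
    omega
  have hrp : ∀ t : ℝ, (N : ℝ) ^ t = Real.exp (t * Real.log N) := by
    intro t
    rw [Real.rpow_def_of_pos hN0, mul_comm]
  have hy₀a' : (y₀ : ℝ) ≤ Real.exp (κ0 * Real.log N) := by rw [← hrp]; exact hy₀a.le
  have hy₀b' : Real.exp (κ0 * Real.log N) ≤ y₀ + 1 := by rw [← hrp]; exact hy₀b
  have h5κ : 5 ≤ κ0 / 2 * Real.log N := by
    have h1 : (5 : ℝ) = κ0 / 2 * (5 * (2 / κ0)) := by field_simp
    rw [h1]
    exact mul_le_mul_of_nonneg_left hN5 (by positivity)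
  obtain ⟨_, _, _, y4, _, _⟩ := y_core (M := 2) hκ00 (by omega : 1 ≤ N) (by push_cast; linarith) hy₀a' hy₀b'
  have hAd := Ad_coreY C0 K0 b hκ00 (by omega : 1 ≤ N) hy₀a' hy₀b' h5κ hκσ
  have hly₀0 : 0 < Real.log y₀ := lt_of_lt_of_le (by linarith) y4
  have hly₀ : Real.log y₀ ≤ κ0 * Real.log N := by
    rw [← Real.log_rpow hN0]
    exact Real.log_le_log (by exact_mod_cast (by omega : 0 < y₀)) hy₀a.le
  obtain ⟨n, hn⟩ : ∃ n : ℝ, n = N * Vz y₀ := ⟨_, rfl⟩
  have hnlow : c0 / κ0 * (N / Real.log N) ≤ n := by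
    have h1 := hV y₀ (by omega)
    have h2 : c0 / (κ0 * Real.log N) ≤ c0 / Real.log y₀ := div_le_div_of_nonneg_left hc0.le hly₀0 hly₀
    have h3 : c0 / κ0 * (N / Real.log N) = N * (c0 / (κ0 * Real.log N)) := by field_simp
    rw [h3, hn]
    exact mul_le_mul_of_nonneg_left (h2.trans h1) hN0.le
  have hnup : n ≤ 2 / κ0 * (N / Real.log N) := by
    have h1 := Pool.Agent.J4.H38.SR.Vz_le y₀ (by omega)
    have h2 : 1 / Real.log y₀ ≤ 1 / (κ0 / 2 * Real.log N) := div_le_div_of_nonneg_left zero_le_one (by positivity) y4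
    have h3 : 2 / κ0 * (N / Real.log N) = N * (1 / (κ0 / 2 * Real.log N)) := by field_simp
    rw [h3, hn]
    exact mul_le_mul_of_nonneg_left (h1.trans h2) hN0.le
  have hn0 : 0 < n := lt_of_lt_of_le (by positivity) hnlow
  -- the density
  obtain ⟨G, hG⟩ : ∃ G : ℝ, G = GG w y := ⟨_, rfl⟩
  obtain ⟨hG1, hG2⟩ := Pool.Agent.J4.H38.DV.gg_bd w y hw2 hyw
  rw [← hG] at hG1 hG2
  have hGlow : c0 / (2 * κ) / Real.log N ≤ G := by
    have h1 := hV y hy3
    have h2 : c0 / (κ * Real.log N) ≤ c0 / Real.log y :=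
      div_le_div_of_nonneg_left hc0.le hlogy0 hlogy
    have h3 : c0 / (2 * κ) / Real.log N = 1 / 2 * (c0 / (κ * Real.log N)) := by
      field_simp
    rw [h3]
    linarith
  have hG0 : 0 < G := lt_of_lt_of_le (by positivity) hGlow
  -- the number of the shifts
  obtain ⟨A, hA⟩ : ∃ A : Finset ℕ, A = AW w 0 H := ⟨_, rfl⟩
  have hAc := (Pool.Agent.J4.H38.DV.AW_card w 0 H).2
  rw [← hA, ← hW] at hAc
  have h0A : ∀ S ⊆ A, 0 ∉ S := by
    intro S hS h0
    have h2 := hS h0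
    rw [hA] at h2
    unfold AW at h2
    rw [mem_filter, mem_Icc] at h2
    omega
  have hcard : 2 * κ / (c0 * η) * Real.log N ≤ A.card := by
    have h1 : (W : ℝ) * (2 * κ / (c0 * η) + 1) * Real.log N ≤ W * (A.card + 1) := hH1.trans hAc
    have h2 : (2 * κ / (c0 * η) + 1) * Real.log N ≤ A.card + 1 := by
      have h3 : (W : ℝ) * ((2 * κ / (c0 * η) + 1) * Real.log N) ≤ W * (A.card + 1) := by
        rw [← mul_assoc]; exact h1
      exact le_of_mul_le_mul_left h3 (by linarith)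
    have h4 : (2 * κ / (c0 * η) + 1) * Real.log N = 2 * κ / (c0 * η) * Real.log N + Real.log N := by ring
    linarith
  have hone : 1 ≤ η * (G * A.card) := by
    have h1 : c0 / (2 * κ) / Real.log N * (2 * κ / (c0 * η) * Real.log N) ≤ G * A.card :=
      mul_le_mul hGlow hcard (by positivity) hG0.le
    have h2 : c0 / (2 * κ) / Real.log N * (2 * κ / (c0 * η) * Real.log N) = 1 / η := by
      field_simp
    rw [h2] at h1
    calc (1 : ℝ) = η * (1 / η) := by field_simp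
      _ ≤ η * (G * A.card) := mul_le_mul_of_nonneg_left h1 hη0.le
  have hlogH : Real.log N ≤ H := by
    refine le_trans ?_ hH1
    have h1 : (1 : ℝ) ≤ W * (2 * κ / (c0 * η) + 1) := by
      have h2 : (1 : ℝ) ≤ 2 * κ / (c0 * η) + 1 := by
        have : 0 ≤ 2 * κ / (c0 * η) := by positivity
        linarith
      nlinarith
    nlinarith
  -- the error term
  obtain ⟨e₀, he₀⟩ : ∃ e₀ : ℝ, e₀ = (2 + 2 * K0) * Real.exp (1 / 2 * Real.log N) := ⟨_, rfl⟩
  have he₀0 : 0 ≤ e₀ := by rw [he₀]; positivity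
  have he0 : ∀ i ≤ k + 1, e₀ ≤ η * (n * G ^ i) := by
    intro i hi
    have h1 : G ^ (k + 1) ≤ G ^ i := pow_le_pow_of_le_one hG0.le hG2 hi
    have h2 : (c0 / (2 * κ)) ^ (k + 1) / Real.log N ^ (k + 1) ≤ G ^ (k + 1) := by
      rw [← div_pow]
      exact pow_le_pow_left₀ (by positivity) hGlow _
    have h3 : e₀ ≤ τ * (N / Real.log N ^ (k + 2)) := by
      rw [he₀]
      refine le_trans (le_of_eq ?_) hN2
      congr 2
      ring
    refine h3.trans ?_
    calc τ * (N / Real.log N ^ (k + 2)) =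
          η * ((c0 / κ0 * (N / Real.log N)) * ((c0 / (2 * κ)) ^ (k + 1) / Real.log N ^ (k + 1))) := by
          rw [hτ, pow_succ (Real.log N) (k + 1)]
          field_simp
      _ ≤ η * (n * G ^ i) := by
          refine mul_le_mul_of_nonneg_left ?_ hη0.le
          exact mul_le_mul hnlow (h2.trans h1) (by positivity) hn0.le
  -- the steps
  have hcs : (sh z A).card = A.card := card_sh z A
  have hsteps : ∀ j < k, ∑ S ∈ (sh z A).powersetCard j, ∑ t ∈ (sh z A) \ S,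
      |Ft (fS P z) N y (insert t S) - G * Ft (fS P z) N y S| ≤ (C * s) * (n * (G * (sh z A).card) ^ (j + 1)) := by
    intro j hj
    have h1 := hstep' j N y (sh z A) (fS P z) (fun m => ro y₀ (m + z)) (fS_bd hP hy₀z) G η n
      e₀ (fun T => VT y (insert z T) / Vz y) hG0 hG2 hη0 hη1 hn0.le he₀0
      (by rw [hcs]; exact hone) (he0 _ (by omega)) ?_ ?_
    · refine h1.trans ?_
      rw [hsq]
      apply mul_le_mul_of_nonneg_right _ (by positivity)
      exact mul_le_mul_of_nonneg_right (hC1 j hj) hs0.le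
    · intro T hT hTc
      refine ⟨div_nonneg (VT_nonneg _ _) (Vz_pos' y).le, ?_⟩
      have h2 := hcnt b hb y₀ (by omega) y hyy₀ T (by omega) z N
      rw [Vmix_eq hyy₀] at h2
      have h3 : (N : ℝ) * (Vz y₀ * (VT y (insert z T) / Vz y)) = n * (VT y (insert z T) / Vz y) := by
        rw [hn]; ring
      rw [h3] at h2
      have h4 : 0 ≤ n * (VT y (insert z T) / Vz y) :=
        mul_nonneg hn0.le (div_nonneg (VT_nonneg _ _) (Vz_pos' y).le)
      have h5 : Ft (fun m => ro y₀ (m + z)) N y T = ∑ m ∈ Icc 1 N, ro y₀ (m + z) * rT T y m := rfl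
      rw [h5]
      refine h2.trans ?_
      have h6 := mul_le_mul_of_nonneg_right hbη h4
      rw [he₀]
      linarith
    · intro i hi
      rw [sum_pow_sh, hcs]
      have h2 := hN1 H y hlogH hH2 hyw i (by omega)
      rw [← hA, ← hG] at h2
      refine le_trans (le_of_eq ?_) h2
      refine sum_congr rfl fun S hS => ?_
      rw [dens_sh z y (h0A S (mem_powersetCard.1 hS).1)]
  have hch := Pool.Agent.J4.H56.DV.chain k (sh z A) (Ft (fS P z) N y) hG0.le (by positivity : 0 ≤ C * s) hn0.le hsteps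
  rw [sum_pow_sh, hcs] at hch
  have hsum0 : Ft (fS P z) N y ∅ = P.card := by
    have h1 := Ft_fS hP y ∅
    have h2 : sh z ∅ = ∅ := by unfold sh; simp
    rw [h2] at h1
    rw [h1]
    simp
  rw [hsum0] at hch
  -- bad sets
  have hlow : ∀ D ∈ Bad, 7 / 8 * (δ * (N / Real.log N)) * G ^ k ≤
      |Ft (fS P z) N y (sh z D) - G ^ k * P.card| := by
    intro D hD
    have h1 := (hBad D hD).2
    rw [← hG] at h1
    rw [Ft_fS hP, abs_sub_comm]
    refine le_trans ?_ (le_abs_self _)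
    have hGk : 0 < G ^ k := by positivity
    have h7 : 7 / 8 * (δ * (N / Real.log N)) * G ^ k ≤ 7 / 8 * (P.card : ℝ) * G ^ k := by
      apply mul_le_mul_of_nonneg_right _ hGk.le
      linarith
    linarith
  have hsum : (Bad.card : ℝ) * (7 / 8 * (δ * (N / Real.log N)) * G ^ k) ≤
      ∑ D ∈ A.powersetCard k, |Ft (fS P z) N y (sh z D) - G ^ k * P.card| := by
    rw [← nsmul_eq_mul]
    refine (card_nsmul_le_sum Bad _ _ hlow).trans ?_
    apply sum_le_sum_of_subset_of_nonneg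
    · intro D hD
      rw [hA]
      exact (hBad D hD).1
    · intro D _ _
      exact abs_nonneg _
  have hfin := hsum.trans hch
  rw [← hA]
  have hGk : 0 < G ^ k := by positivity
  have hNL : 0 < (N : ℝ) / Real.log N := by positivity
  have h8 : (Bad.card : ℝ) * (7 / 8 * δ) ≤ k * (C * s) * (2 / κ0) * (A.card : ℝ) ^ k := by
    have h9 : (Bad.card : ℝ) * (7 / 8 * δ) * ((N / Real.log N) * G ^ k) ≤
        k * (C * s) * (2 / κ0) * (A.card : ℝ) ^ k * ((N / Real.log N) * G ^ k) := by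
      calc (Bad.card : ℝ) * (7 / 8 * δ) * ((N / Real.log N) * G ^ k) =
            (Bad.card : ℝ) * (7 / 8 * (δ * (N / Real.log N)) * G ^ k) := by ring
        _ ≤ k * (C * s) * (n * (G * A.card) ^ k) := hfin
        _ ≤ k * (C * s) * ((2 / κ0 * (N / Real.log N)) * (G * A.card) ^ k) := by
            refine mul_le_mul_of_nonneg_left ?_ (by positivity)
            exact mul_le_mul_of_nonneg_right hnup (by positivity)
        _ = _ := by rw [mul_pow]; ring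
    exact le_of_mul_le_mul_right h9 (by positivity)
  have h10 : (k : ℝ) * (C * s) * (2 / κ0) ≤ 7 / 8 * δ * ε := by
    have h11 : C * s * (2 / κ0) ≤ 7 * δ * ε / (8 * (k + 1)) := by
      have h12 : C * s * (2 / κ0) = 2 * C * a := by
        rw [hs]
        field_simp
      rw [h12]
      calc 2 * C * a ≤ 2 * C * (7 * δ * ε / (16 * (k + 1) * C)) :=
            mul_le_mul_of_nonneg_left ha2 (by positivity)
        _ = 7 * δ * ε / (8 * (k + 1)) := by field_simp; norm_num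
    calc (k : ℝ) * (C * s) * (2 / κ0) = k * (C * s * (2 / κ0)) := by ring
      _ ≤ (k + 1) * (7 * δ * ε / (8 * (k + 1))) := by
          apply mul_le_mul _ h11 (by positivity) (by positivity)
          linarith
      _ = 7 / 8 * δ * ε := by field_simp
  have h12 : (Bad.card : ℝ) * (7 / 8 * δ) ≤ 7 / 8 * δ * ε * (A.card : ℝ) ^ k :=
    h8.trans (mul_le_mul_of_nonneg_right h10 (by positivity))
  have h13 : (Bad.card : ℝ) * (7 / 8 * δ) ≤ (ε * (A.card : ℝ) ^ k) * (7 / 8 * δ) := by linarith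
  exact le_of_mul_le_mul_right h13 (by positivity)

end Pool.Agent.J4.H57.DS
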