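import Mathlib
import Pool.Agent.J4.H57.DS.Base
import Pool.Agent.J4.H38.SR3.Alm

/-! Dense sets of primes in short intervals: the main theorem. For EVERY interval `(z, z + N]`, `N ≤ z ≤ N ^ (4/3) - 2 N`, every set
`P` of a positive proportion of the primes and almost all sets of `k` multiples of `W` in `[1, H]`. -/

set_option autoImplicit false

namespace Pool.Agent.J4.H57.DS

open Finset Filter
open Pool.Agent.Y822
open Pool.Agent.Y822.Low (step_lower')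
open Pool.Agent.J4.H38.SR
open Pool.Agent.J4.H38.SR2
open Pool.Agent.J4.H38.DV
open Pool.Agent.H373R2.T7 (pz Vz mem_pz)
open Pool.Agent.H387R2.Uni (nuT)

open Classical in
/-- the number of the elements `p` of `P` such that all `p + d`, `d ∈ D`, have at most three prime factors, all of them
at least `N ^ (1/8)` -/
noncomputable def piS (P D : Finset ℕ) (N : ℕ) : ℕ :=
  (P.filter (fun p => ∀ d ∈ D, (p + d).primeFactorsList.length ≤ 3 ∧
    ∀ q ∈ (p + d).primeFactors, (N : ℝ) ^ (1 / 8 : ℝ) ≤ q)).card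

lemma fS_01 (P : Finset ℕ) (z n : ℕ) : 0 ≤ fS P z n ∧ fS P z n ≤ 1 := by
  unfold fS; split_ifs <;> norm_num

lemma WH_fullS {P : Finset ℕ} {z N : ℕ} (y : ℕ) (D : Finset ℕ) :
    ∑ n ∈ Icc 1 N, WH (fS P z) (g3 N) (ro y) (sh z D) (sh z D) n ≤ piS P D N := by
  classical
  have hle : ∑ n ∈ Icc 1 N, WH (fS P z) (g3 N) (ro y) (sh z D) (sh z D) n ≤
      ∑ n ∈ Icc 1 N, (if n + z ∈ P ∧ ∀ d ∈ D, (n + z + d).primeFactorsList.length ≤ 3 ∧
        ∀ q ∈ (n + z + d).primeFactors, (N : ℝ) ^ (1 / 8 : ℝ) ≤ q then (1 : ℝ) else 0) := by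
    refine sum_le_sum fun n _ => ?_
    unfold WH
    rw [sdiff_self, bot_eq_empty, prod_empty, mul_one]
    have p0 : 0 ≤ ∏ s ∈ sh z D, g3 N (n + s) := prod_nonneg fun s _ => (g3_bd _ _).1
    have p1 : ∏ s ∈ sh z D, g3 N (n + s) ≤ 1 := prod_le_one (fun s _ => (g3_bd _ _).1) fun s _ => (g3_bd _ _).2
    split_ifs with h
    · exact mul_le_one₀ (fS_01 P z n).2 p0 p1
    · apply le_of_eq
      by_contra hne
      apply h
      have h1 : fS P z n ≠ 0 := left_ne_zero_of_mul hne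
      have h2 : ∏ s ∈ sh z D, g3 N (n + s) ≠ 0 := right_ne_zero_of_mul hne
      refine ⟨?_, fun d hd => ?_⟩
      · unfold fS at h1
        by_contra hc
        exact h1 (if_neg hc)
      · have h5 := (prod_ne_zero_iff.1 h2) (d + z) (mem_image_of_mem _ hd)
        rw [show n + z + d = n + (d + z) by ring]
        unfold g3 at h5
        by_contra hc
        exact h5 (if_neg fun h6 => hc h6.2)
  refine hle.trans ?_
  rw [← sum_filter, sum_const, nsmul_eq_mul, mul_one]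
  unfold piS
  have h1 : ((Icc 1 N).filter (fun n => n + z ∈ P ∧ ∀ d ∈ D, (n + z + d).primeFactorsList.length ≤ 3 ∧
        ∀ q ∈ (n + z + d).primeFactors, (N : ℝ) ^ (1 / 8 : ℝ) ≤ q)).card ≤
      (P.filter (fun p => ∀ d ∈ D, (p + d).primeFactorsList.length ≤ 3 ∧
    ∀ q ∈ (p + d).primeFactors, (N : ℝ) ^ (1 / 8 : ℝ) ≤ q)).card := by
    refine card_le_card_of_injOn (fun n => n + z) (fun n hn => ?_) (fun a _ b _ h => by simpa using h)
    rw [mem_coe, mem_filter] at hn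
    rw [mem_coe, mem_filter]
    exact hn.2
  exact_mod_cast h1

/-- the base sum -/
lemma base_eqS {P : Finset ℕ} {z N : ℕ} (hP : P ⊆ (Ioc z (z + N)).filter Nat.Prime) (y : ℕ) (D : Finset ℕ) :
    ∑ n ∈ Icc 1 N, WH (fS P z) (g3 N) (ro y) (sh z D) ∅ n = ∑ p ∈ P, ∏ t ∈ D, ro y (p + t) := by
  classical
  rw [← Ft_fS hP]
  unfold Ft
  refine sum_congr rfl fun n _ => ?_
  unfold WH
  rw [prod_empty, one_mul, sdiff_empty]

lemma sum_VT_sh {z y j : ℕ} {A : Finset ℕ} :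
    ∑ S ∈ (sh z A).powersetCard j, VT y ({z} ∪ S) = ∑ S ∈ A.powersetCard j, VT y ({0} ∪ S) := by
  rw [sum_pow_sh]
  refine sum_congr rfl fun S _ => ?_
  have e1 : ({z} ∪ sh z S : Finset ℕ) = sh z ({0} ∪ S) := by
    unfold sh
    rw [image_union, image_singleton, zero_add]
  rw [e1, VT_sh]

lemma calcS {k : ℕ} {cs L n u G Pc W x P δ : ℝ} (hcs : 0 < cs) (_hcs1 : cs ≤ 1) (hL : 1 ≤ L)
    (hu0 : 0 ≤ u) (_hu1 : u ≤ 1) (huG : cs / L ≤ u * G) (hPc : δ * (n / L) ≤ Pc) (hPc0 : 0 ≤ Pc)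
    (hW : 1 / 8 * (Pc * G ^ (k + 1)) ≤ W)
    (hx : (k + 1) * x ≤ 1 / 32 * cs ^ (k + 1) * δ * (n / L ^ (k + 2)))
    (hP : u ^ (k + 1) * W - (k + 1) * x ≤ P) :
    (cs / 16) ^ (k + 1) * (Pc / L ^ (k + 1)) ≤ P := by
  have hL0 : 0 < L := by linarith
  have hcsp : 0 < cs ^ (k + 1) := by positivity
  have g1 : u ^ (k + 1) * (1 / 8 * (Pc * G ^ (k + 1))) ≤ u ^ (k + 1) * W :=
    mul_le_mul_of_nonneg_left hW (pow_nonneg hu0 _)
  have g4 : (cs / L) ^ (k + 1) ≤ (u * G) ^ (k + 1) := pow_le_pow_left₀ (by positivity) huG _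
  have g3 : 1 / 8 * (cs ^ (k + 1) * (Pc / L ^ (k + 1))) ≤ u ^ (k + 1) * (1 / 8 * (Pc * G ^ (k + 1))) := by
    calc 1 / 8 * (cs ^ (k + 1) * (Pc / L ^ (k + 1))) = 1 / 8 * Pc * (cs / L) ^ (k + 1) := by
          rw [div_pow]
          ring
      _ ≤ 1 / 8 * Pc * (u * G) ^ (k + 1) := mul_le_mul_of_nonneg_left g4 (by positivity)
      _ = _ := by rw [mul_pow]; ring
  have g5 : cs ^ (k + 1) * δ * (n / L ^ (k + 2)) ≤ cs ^ (k + 1) * (Pc / L ^ (k + 1)) := by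
    have h2 : δ * (n / L ^ (k + 2)) = δ * (n / L) / L ^ (k + 1) := by
      rw [show k + 2 = (k + 1) + 1 by ring, pow_succ L (k + 1)]
      field_simp
    rw [mul_assoc, h2]
    exact mul_le_mul_of_nonneg_left (div_le_div_of_nonneg_right hPc (by positivity)) hcsp.le
  have g6 : (cs / 16) ^ (k + 1) * (Pc / L ^ (k + 1)) ≤ 1 / 16 * (cs ^ (k + 1) * (Pc / L ^ (k + 1))) := by
    have h2 : (cs / 16) ^ (k + 1) ≤ 1 / 16 * cs ^ (k + 1) := by
      have h3 : (1 / 16 : ℝ) ^ (k + 1) ≤ 1 / 16 := by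
        calc (1 / 16 : ℝ) ^ (k + 1) ≤ (1 / 16) ^ 1 := pow_le_pow_of_le_one (by norm_num) (by norm_num) (by omega)
          _ = _ := pow_one _
      calc (cs / 16) ^ (k + 1) = (1 / 16 : ℝ) ^ (k + 1) * cs ^ (k + 1) := by rw [← mul_pow]; ring
        _ ≤ _ := mul_le_mul_of_nonneg_right h3 hcsp.le
    calc _ ≤ 1 / 16 * cs ^ (k + 1) * (Pc / L ^ (k + 1)) := mul_le_mul_of_nonneg_right h2 (by positivity)
      _ = _ := by ring
  have e1 : 1 / 32 * cs ^ (k + 1) * δ * (n / L ^ (k + 2)) = 1 / 32 * (cs ^ (k + 1) * δ * (n / L ^ (k + 2))) := by ring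
  rw [e1] at hx
  have g7 : 0 ≤ cs ^ (k + 1) * (Pc / L ^ (k + 1)) := by positivity
  linarith

/-- **dense sets of primes in short intervals** -/
theorem denseS : ∃ c : ℝ, 0 < c ∧ ∀ (k : ℕ) (δ ε : ℝ), 0 < δ → 0 < ε → ∃ w : ℕ, 2 ≤ w ∧ ∃ Λ : ℝ, 0 < Λ ∧
    ∀ᶠ N : ℕ in atTop, ∀ z : ℕ, N ≤ z → ((z + 2 * N : ℕ) : ℝ) ≤ (N : ℝ) ^ (4 / 3 : ℝ) →
    ∀ H : ℕ, Λ * Real.log N ≤ H → H ≤ N →
    ∀ P ⊆ (Ioc z (z + N)).filter Nat.Prime, δ * (N / Real.log N) ≤ P.card →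
    ∀ Bad : Finset (Finset ℕ), (∀ D ∈ Bad, D ∈ (AW w 0 H).powersetCard (k + 1) ∧
      (piS P D N : ℝ) < c ^ (k + 1) * (P.card / Real.log N ^ (k + 1))) →
    (Bad.card : ℝ) ≤ ε * ((AW w 0 H).card : ℝ) ^ (k + 1) := by
  classical
  obtain ⟨c₀', hc₀', STEP⟩ := stepR
  obtain ⟨cz, hcz, VZ⟩ := Vz_sharp
  obtain ⟨c₀, hc₀d⟩ : ∃ c₀ : ℝ, c₀ = min c₀' 1 := ⟨_, rfl⟩
  have hc₀ : 0 < c₀ := by rw [hc₀d]; exact lt_min hc₀' one_pos
  have hc₀1 : c₀ ≤ 1 := by rw [hc₀d]; exact min_le_right _ _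
  have hc₀2 : c₀ ≤ c₀' := by rw [hc₀d]; exact min_le_left _ _
  obtain ⟨cs, hcs⟩ : ∃ cs : ℝ, cs = min (c₀ * cz / 2) 1 := ⟨_, rfl⟩
  have hcs0 : 0 < cs := by rw [hcs]; exact lt_min (by positivity) one_pos
  have hcs1 : cs ≤ 1 := by rw [hcs]; exact min_le_right _ _
  have hcs2 : cs ≤ c₀ * cz / 2 := by rw [hcs]; exact min_le_left _ _
  refine ⟨cs / 16, by positivity, fun k δ₀ ε hδ₀ hε => ?_⟩
  obtain ⟨w, hw, κ₀, hκ₀, hbase⟩ := baseS (k + 1) δ₀ (ε / 2) hδ₀ (by linarith)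
  refine ⟨w, hw, ?_⟩
  obtain ⟨W, hW⟩ : ∃ W : ℕ, W = ∏ p ∈ pz w, p := ⟨_, rfl⟩
  have hW1 : 1 ≤ W := by
    rw [hW]
    exact prod_pos fun p hp => (mem_pz.1 hp).2.pos
  have hWr : (1 : ℝ) ≤ W := by exact_mod_cast hW1
  obtain ⟨ε', hε'⟩ : ∃ ε' : ℝ, ε' = ε / (2 * (2 * W) ^ (k + 1)) := ⟨_, rfl⟩
  have hε'0 : 0 < ε' := by rw [hε']; positivity
  obtain ⟨δ, hδ⟩ : ∃ δ : ℝ, δ = cs ^ (k + 1) * δ₀ / (96 * (k + 1)) := ⟨_, rfl⟩
  have hδ0 : 0 < δ := by rw [hδ]; positivity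
  obtain ⟨Cv, hCv0, hVT⟩ := Pool.Agent.J4.H38.SR3.sum_VT_pat (k + 2)
  obtain ⟨κ, Λ₁, hκ, hκm, hκh, hΛ₁, hfew⟩ := few_short2 k 1 2 (by norm_num) (xs := 1 / 1000) (δ := δ)
    (ε' := ε') (κm := min (1 / 40) κ₀) (Cv := Cv) (by norm_num) (by norm_num)
    hδ0 hε'0 (lt_min (by norm_num) hκ₀) hCv0
  have hκ40 : κ ≤ 1 / 40 := hκm.trans (min_le_left _ _)
  have hκκ : κ ≤ κ₀ := hκm.trans (min_le_right _ _)
  obtain ⟨Λ₂, hΛ₂, hbase⟩ := hbase κ hκ hκκ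
  obtain ⟨N₁, STEP⟩ := STEP κ hκ hκ40
  obtain ⟨M, hM⟩ : ∃ M : ℕ, M = w + 2 * (k + 3) ^ 2 + 5 := ⟨_, rfl⟩
  refine ⟨max (max Λ₁ Λ₂) (2 * W), lt_max_of_lt_right (by positivity), ?_⟩
  filter_upwards [hbase, hfew, ev_logN (eventually_ge_atTop (max 3 ((M + 2) * (2 / κ)))),
    ev_small (k + 2) (by norm_num : (0 : ℝ) < 1 / 8) 12 hδ0,
    eventually_ge_atTop (max N₁ 3)]
    with N hbase hfew hL1' hs8 hN
  intro z hNz hz H hH1' hHN P hP hPc Bad hBad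
  have hNN₁ : N₁ ≤ N := (le_max_left _ _).trans hN
  have hN3 : 3 ≤ N := (le_max_right _ _).trans hN
  have hN2 : 2 ≤ N := by omega
  set L := Real.log N with hLd
  have hL3 : 3 ≤ L := (le_max_left _ _).trans hL1'
  have hL1 : 1 ≤ L := by linarith
  have hLM : (M + 2) * (2 / κ) ≤ L := (le_max_right _ _).trans hL1'
  have hL0 : 0 < L := by linarith
  have hH1 : Λ₁ * L ≤ H := (mul_le_mul_of_nonneg_right ((le_max_left _ _).trans (le_max_left _ _)) hL0.le).trans hH1'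
  have hH2 : Λ₂ * L ≤ H := (mul_le_mul_of_nonneg_right ((le_max_right _ _).trans (le_max_left _ _)) hL0.le).trans hH1'
  have hHW : 2 * W * L ≤ H := (mul_le_mul_of_nonneg_right (le_max_right _ _) hL0.le).trans hH1'
  have hN0 : (0 : ℝ) < N := by positivity
  have hN1 : (1 : ℝ) ≤ N := by exact_mod_cast (by omega : 1 ≤ N)
  have hNe : (N : ℝ) = Real.exp L := by rw [hLd, Real.exp_log hN0]
  have hrp : ∀ s : ℝ, (N : ℝ) ^ s = Real.exp (s * L) := by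
    intro s
    rw [Real.rpow_def_of_pos hN0, ← hLd, mul_comm]
  -- the number of the shifts
  obtain ⟨q, hq⟩ : ∃ q : ℝ, q = ((AW w 0 H).card : ℝ) := ⟨_, rfl⟩
  have hq0 : 0 ≤ q := by rw [hq]; exact Nat.cast_nonneg _
  have hqH := AW_card w 0 H
  rw [← hq, ← hW] at hqH
  have hq1 : 1 ≤ q := by
    by_contra hc
    push Not at hc
    have h1 : q = 0 := by
      rw [hq] at hc ⊢
      have : (AW w 0 H).card < 1 := by exact_mod_cast hc
      have h2 : (AW w 0 H).card = 0 := by omega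
      rw [h2, Nat.cast_zero]
    rw [h1] at hqH
    nlinarith
  have hHq : (H : ℝ) ≤ 2 * W * q := by nlinarith [hqH.2]
  have hε'H : ε' * (H : ℝ) ^ (k + 1) ≤ ε / 2 * q ^ (k + 1) := by
    have h1 : (H : ℝ) ^ (k + 1) ≤ (2 * W) ^ (k + 1) * q ^ (k + 1) := by
      rw [← mul_pow]
      exact pow_le_pow_left₀ (by positivity) hHq _
    calc ε' * (H : ℝ) ^ (k + 1) ≤ ε' * ((2 * W) ^ (k + 1) * q ^ (k + 1)) := mul_le_mul_of_nonneg_left h1 hε'0.le
      _ = ε / 2 * q ^ (k + 1) := by rw [hε']; field_simp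
  -- the sifting limit
  obtain ⟨y, hy⟩ : ∃ y : ℕ, y + 1 = ⌈(N : ℝ) ^ κ⌉₊ := by
    have : 0 < ⌈(N : ℝ) ^ κ⌉₊ := Nat.ceil_pos.2 (by positivity)
    exact ⟨⌈(N : ℝ) ^ κ⌉₊ - 1, by omega⟩
  have hya : (y : ℝ) < (N : ℝ) ^ κ := Nat.lt_ceil.1 (by omega)
  have hyb : (N : ℝ) ^ κ ≤ y + 1 := by
    have := Nat.le_ceil ((N : ℝ) ^ κ)
    rw [← hy] at this
    exact_mod_cast this
  have hya' : (y : ℝ) ≤ Real.exp (κ * L) := by rw [← hrp]; exact hya.le
  have hyb' : Real.exp (κ * L) ≤ y + 1 := by rw [← hrp]; exact hyb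
  have hML : (M : ℝ) + 2 ≤ κ / 2 * L := by
    have h1 : (M : ℝ) + 2 = κ / 2 * ((M + 2) * (2 / κ)) := by field_simp
    rw [h1]
    exact mul_le_mul_of_nonneg_left hLM (by positivity)
  obtain ⟨_, _, y3, y4, _, y6⟩ := y_core (M := M) hκ (by omega : 1 ≤ N) hML hya' hyb'
  have hyw : w ≤ y := by omega
  have hy3 : 3 ≤ y := by omega
  have hy0 : (0 : ℝ) < y := by positivity
  have hyz : y ≤ z := by
    have h1 : (y : ℝ) ≤ N := by
      calc (y : ℝ) ≤ (N : ℝ) ^ κ := hya.le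
        _ ≤ (N : ℝ) ^ (1 : ℝ) := Real.rpow_le_rpow_of_exponent_le hN1 (by linarith)
        _ = N := Real.rpow_one _
    have h2 : y ≤ N := by exact_mod_cast h1
    omega
  -- the factor of one step
  obtain ⟨u, hu⟩ : ∃ u : ℝ, u = c₀ * κ := ⟨_, rfl⟩
  have hu0 : 0 ≤ u := by rw [hu]; positivity
  have hu1 : u ≤ 1 := by rw [hu]; exact mul_le_one₀ hc₀1 hκ.le (by linarith)
  have hVz0 : 0 ≤ Vz y := (Vz_pos' y).le
  have hly : 0 < Real.log y := Real.log_pos (by exact_mod_cast (by omega : 1 < y))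
  have hlyu : Real.log y ≤ κ * L := by
    rw [← Real.log_exp (κ * L)]
    exact Real.log_le_log hy0 hya'
  have huG : cs / L ≤ u * GG w y := by
    have t5 : cz / (κ * L) ≤ Vz y := (div_le_div_of_nonneg_left hcz.le hly hlyu).trans (VZ y hy3)
    have t6 := (gg_bd w y hw hyw).1
    calc cs / L ≤ c₀ * cz / 2 / L := div_le_div_of_nonneg_right hcs2 hL0.le
      _ = u * (1 / 2 * (cz / (κ * L))) := by rw [hu]; field_simp
      _ ≤ u * GG w y := mul_le_mul_of_nonneg_left (by linarith) hu0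
  -- the error of one step
  obtain ⟨X, hX⟩ : ∃ X : ℝ, X = N / L ^ (k + 2) := ⟨_, rfl⟩
  have hX0 : 0 < X := by rw [hX]; positivity
  have h78 : 12 * (N : ℝ) ^ (7 / 8 : ℝ) ≤ δ * X := by
    rw [hrp, hX]
    have e : (7 / 8 : ℝ) * L = (1 - 1 / 8) * L := by ring
    rw [e]
    exact hs8
  have hx0 : 0 ≤ 3 * δ * X := by positivity
  -- the shifts
  have hAWm : ∀ d, d ∈ AW w 0 H → 1 ≤ d ∧ d ≤ H := by
    intro d hd
    unfold AW at hd
    rw [mem_filter, mem_Icc] at hd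
    exact hd.1
  obtain ⟨A, hA⟩ : ∃ A : Finset ℕ, A = Icc 1 H := ⟨_, rfl⟩
  have hAm : ∀ d, d ∈ A ↔ 1 ≤ d ∧ d ≤ H := by
    intro d
    rw [hA, mem_Icc]
  -- the two kinds of exceptional sets
  obtain ⟨B1, hB1⟩ : ∃ B1, B1 = Bad.filter (fun D => ∑ p ∈ P, ∏ t ∈ D, ro y (p + t) <
    1 / 8 * (P.card * GG w y ^ (k + 1))) := ⟨_, rfl⟩
  obtain ⟨B3, hB3⟩ : ∃ B3, B3 = Bad.filter (fun D =>
    ¬ (∑ p ∈ P, ∏ t ∈ D, ro y (p + t) < 1 / 8 * (P.card * GG w y ^ (k + 1)))) := ⟨_, rfl⟩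
  have hcov : Bad.card = B1.card + B3.card := by
    rw [hB1, hB3]
    exact (card_filter_add_card_filter_not _).symm
  have hc1 : (B1.card : ℝ) ≤ ε / 2 * q ^ (k + 1) := by
    rw [hq]
    refine hbase y hya hyb z hNz H hH2 hHN P hP hPc B1 fun D hD => ?_
    rw [hB1, mem_filter] at hD
    exact ⟨(hBad D hD.1).1, hD.2⟩
  suffices hc3 : (B3.card : ℝ) ≤ ε' * (H : ℝ) ^ (k + 1) by
    have h4 : (Bad.card : ℝ) = B1.card + B3.card := by exact_mod_cast hcov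
    rw [← hq]
    linarith
  have hBc : (B3.image (sh z)).card = B3.card := card_image_of_injective _ (sh_inj z)
  rw [← hBc]
  refine hfew y hya' hyb' ⌊(N : ℝ) ^ (499 / 1000 : ℝ)⌋₊ ?_ (sh z A) {z} ∅ (card_singleton z) (by simp)
    ?_ (z + 2 * N) ?_ ?_ ?_ (fS P z) (fS_01 P z) (fun n _ _ => ?_) (g3 N) ?_ H hH1 ?_ ?_
    (B3.image (sh z)) ?_
  · refine (Nat.floor_le (by positivity)).trans (le_of_eq ?_)
    rw [hrp]
    congr 1
    ring
  · rw [disjoint_singleton_left]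
    intro h
    obtain ⟨d, hd, h⟩ := mem_image.1 h
    have := (hAm d).1 hd
    omega
  · have h1 : ((z + 2 * N : ℕ) : ℝ) ≤ ((N ^ 2 : ℕ) : ℝ) := by
      refine hz.trans ?_
      push_cast
      rw [← Real.rpow_natCast]
      exact Real.rpow_le_rpow_of_exponent_le hN1 (by norm_num)
    exact_mod_cast h1
  · intro a ha
    obtain ⟨d, hd, rfl⟩ := mem_image.1 ha
    have := (hAm d).1 hd
    omega
  · intro a ha a' ha'
    obtain ⟨d, hd, rfl⟩ := mem_image.1 ha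
    obtain ⟨d', hd', rfl⟩ := mem_image.1 ha'
    have := (hAm d).1 hd
    have := (hAm d').1 hd'
    omega
  · unfold rT
    rw [prod_singleton]
    exact (fS_bd hP hyz n).2
  · intro n
    refine ⟨(g3_bd N n).1, g3_le_ro ?_ n⟩
    refine hya.trans_le (Real.rpow_le_rpow_of_exponent_le hN1 ?_)
    linarith
  · rw [card_sh, hA, Nat.card_Icc, Nat.add_sub_cancel]
  · intro j hj
    rw [sum_VT_sh]
    exact hVT κ hκ L hL0 y (by rw [show k + 2 + 1 = k + 3 by ring]; omega) y4 H A (by rw [hA]) j hj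
  · intro D' hD'
    obtain ⟨D, hD, rfl⟩ := mem_image.1 hD'
    rw [hB3, mem_filter] at hD
    obtain ⟨hDB, hnb⟩ := hD
    obtain ⟨b1, b3⟩ := hBad D hDB
    rw [mem_powersetCard] at b1
    refine ⟨?_, fun hg => ?_⟩
    · rw [powersetCard_sh]
      refine mem_image_of_mem _ ?_
      rw [mem_powersetCard]
      exact ⟨fun d hd => (hAm d).2 (hAWm d (b1.1 hd)), b1.2⟩
    have hDN : ∀ h ∈ D, h ≤ N := fun h hh => ((hAWm h (b1.1 hh)).2).trans hHN
    have hcs' : (sh z D).card = k + 1 := by rw [card_sh, b1.2]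
    -- one step
    have hZ : ∀ t ∈ sh z D, ∀ S1 ⊆ (sh z D).erase t,
        u * ∑ n ∈ Icc 1 N, WH (fS P z) (g3 N) (ro y) ((sh z D).erase t) S1 n * ro y (n + t) - 3 * δ * X ≤
          ∑ n ∈ Icc 1 N, WH (fS P z) (g3 N) (ro y) ((sh z D).erase t) S1 n * g3 N (n + t) := by
      intro t ht S1 hS1
      set f := WH (fS P z) (g3 N) (ro y) ((sh z D).erase t) S1 with hf
      have hf01 : ∀ n, 0 ≤ f n ∧ f n ≤ 1 := WH_bd (fS_01 P z) (g3_bd N) (ro_bd y) _ _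
      have hgood := hg t ht S1 hS1
      rw [← hf, show k + 1 + 1 = k + 2 by ring, ← hX] at hgood
      have htN : ((N + t : ℕ) : ℝ) ≤ (N : ℝ) ^ (4 / 3 : ℝ) := by
        refine le_trans ?_ hz
        obtain ⟨d, hd, rfl⟩ := mem_image.1 ht
        have := hDN d hd
        exact_mod_cast (by omega : N + (d + z) ≤ z + 2 * N)
      have hs := STEP N hNN₁ y hya hyb f (fun n => (hf01 n).1) (fun n => (hf01 n).2) t htN
      have hW0 : 0 ≤ ∑ n ∈ Icc 1 N, f n * ro y (n + t) :=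
        sum_nonneg fun n _ => mul_nonneg (hf01 n).1 (ro_nonneg _ _)
      have h5 : u * ∑ n ∈ Icc 1 N, f n * ro y (n + t) ≤
          c₀' * κ * ∑ n ∈ Icc 1 N, f n * ro y (n + t) := by
        rw [hu]
        exact mul_le_mul_of_nonneg_right (mul_le_mul_of_nonneg_right hc₀2 hκ.le) hW0
      linarith
    have hlower := step_lower' (H := sh z D) hx0 hu0 hu1 hZ (sh z D) (subset_refl _)
    rw [hcs'] at hlower
    have hbe := base_eqS hP y D
    have hfull := WH_fullS (P := P) (z := z) (N := N) y D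
    have hfin := calcS (k := k) (cs := cs) (L := L) (n := N) (u := u) (G := GG w y) (Pc := P.card)
      (W := ∑ n ∈ Icc 1 N, WH (fS P z) (g3 N) (ro y) (sh z D) ∅ n) (x := 3 * δ * X) (P := piS P D N) (δ := δ₀)
      hcs0 hcs1 hL1 hu0 hu1 huG hPc (Nat.cast_nonneg _) (by rw [hbe]; exact not_lt.1 hnb) ?_
      (by push_cast at hlower; linarith)
    · linarith
    · rw [← hX, hδ]
      apply le_of_eq
      field_simp
      norm_num

end Pool.Agent.J4.H57.DS
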