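import Mathlib
import Pool.Agent.J4.H57.QP.Up
import Pool.Agent.J4.H38.SR.Avg

/-! Dense sets of primes in EVERY short interval contain the expected number of tuples, for a positive proportion of all
patterns: Brun's pigeonhole principle, the uniform upper bound sieve in short intervals and the second moment of the singular
series. -/

set_option autoImplicit false

namespace Pool.Agent.J4.H57.DS

open Finset Filter
open Pool.Agent.Y822 (pat card_pat)
open Pool.Agent.H387R2.Uni (nuT Adm locT CT CT_nonneg)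

/-- the number of the `p ∈ P` with `p + D ⊆ P` -/
def cntD (P D : Finset ℕ) : ℕ := (P.filter (fun p => ∀ d ∈ D, p + d ∈ P)).card

/-- the elements of `P` behind `p`, up to the distance `H` -/
def nxt (P : Finset ℕ) (H p : ℕ) : Finset ℕ := (Icc 1 H).filter (fun d => p + d ∈ P)

lemma sum_cntD (P : Finset ℕ) (H q : ℕ) :
    ∑ D ∈ (Icc 1 H).powersetCard q, cntD P D = ∑ p ∈ P, ((nxt P H p).card).choose q := by
  classical
  have h1 : ∀ D, cntD P D = ∑ p ∈ P, if (∀ d ∈ D, p + d ∈ P) then 1 else 0 := by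
    intro D
    unfold cntD
    rw [card_filter]
  rw [sum_congr rfl fun D _ => h1 D, sum_comm]
  refine sum_congr rfl fun p _ => ?_
  rw [← card_filter, ← card_powersetCard]
  congr 1
  ext D
  rw [mem_filter, mem_powersetCard, mem_powersetCard]
  constructor
  · rintro ⟨⟨h2, h3⟩, h4⟩
    exact ⟨fun d hd => mem_filter.2 ⟨h2 hd, h4 d hd⟩, h3⟩
  · rintro ⟨h2, h3⟩
    exact ⟨⟨fun d hd => (mem_filter.1 (h2 hd)).1, h3⟩, fun d hd => (mem_filter.1 (h2 hd)).2⟩

/-- few elements have few elements behind them -/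
lemma few_lonely {P : Finset ℕ} {z N : ℕ} (hP : P ⊆ Ioc z (z + N)) {H : ℕ} (hH : 1 ≤ H) (K : ℕ) :
    ((P.filter (fun p => (nxt P H p).card < K)).card) ≤ K * (N / H + 1) := by
  classical
  obtain ⟨B, hB⟩ : ∃ B, B = P.filter (fun p => (nxt P H p).card < K) := ⟨_, rfl⟩
  rw [← hB]
  have hmap : ∀ p ∈ B, (p - z - 1) / H ∈ range (N / H + 1) := by
    intro p hp
    have h1 := mem_Ioc.1 (hP (mem_filter.1 (hB ▸ hp)).1)
    rw [mem_range]
    have h2 : (p - z - 1) / H ≤ N / H := Nat.div_le_div_right (by omega)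
    omega
  have hfib : ∀ j ∈ range (N / H + 1), (B.filter (fun p => (p - z - 1) / H = j)).card ≤ K := by
    intro j _
    by_contra hcon
    push Not at hcon
    obtain ⟨C, hC⟩ : ∃ C, C = B.filter (fun p => (p - z - 1) / H = j) := ⟨_, rfl⟩
    rw [← hC] at hcon
    have hne : C.Nonempty := card_pos.1 (by omega)
    obtain ⟨m, hm, hmin⟩ := exists_min_image C id hne
    simp only [id] at hmin
    have hmB : m ∈ B := (mem_filter.1 (hC ▸ hm)).1
    have hmK : (nxt P H m).card < K := by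
      have h := hmB
      rw [hB, mem_filter] at h
      exact h.2
    have hsub : (C.erase m).card ≤ (nxt P H m).card := by
      refine card_le_card_of_injOn (fun p => p - m) (fun p hp => ?_) (fun a ha b hb h => ?_)
      · rw [mem_coe, mem_erase] at hp
        have h1 := hmin p hp.2
        have h2 := mem_filter.1 (hC ▸ hp.2)
        have h3 := mem_filter.1 (hC ▸ hm)
        have h4 := (mem_filter.1 (hB ▸ h2.1)).1
        have h5 := mem_Ioc.1 (hP h4)
        have h6 := mem_Ioc.1 (hP (mem_filter.1 (hB ▸ h3.1)).1)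
        have h7 : p - m < H := by
          have e1 := Nat.div_add_mod (p - z - 1) H
          have e2 := Nat.div_add_mod (m - z - 1) H
          rw [h2.2] at e1
          rw [h3.2] at e2
          have e3 := Nat.mod_lt (p - z - 1) hH
          have e4 := Nat.mod_lt (m - z - 1) hH
          omega
        rw [mem_coe]
        unfold nxt
        rw [mem_filter, mem_Icc]
        have hne' : p ≠ m := hp.1
        refine ⟨⟨?_, ?_⟩, ?_⟩
        · show 1 ≤ p - m
          omega
        · show p - m ≤ H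
          omega
        show m + (p - m) ∈ P
        rw [Nat.add_sub_cancel' h1]
        exact h4
      · rw [mem_coe, mem_erase] at ha hb
        have h1 := hmin a ha.2
        have h2 := hmin b hb.2
        simp only at h
        omega
    have h8 := card_erase_of_mem hm
    omega
  have h1 := card_eq_sum_card_fiberwise hmap
  rw [h1]
  calc ∑ j ∈ range (N / H + 1), (B.filter (fun p => (p - z - 1) / H = j)).card ≤
        ∑ _j ∈ range (N / H + 1), K := sum_le_sum hfib
    _ = K * (N / H + 1) := by rw [sum_const, card_range, smul_eq_mul, mul_comm]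

/-- the upper bound sieve -/
lemma cntD_le (q : ℕ) : ∃ C : ℝ, 0 < C ∧ ∃ N₀ : ℕ, ∀ z N : ℕ, N₀ ≤ N → N ≤ z → ∀ P ⊆ (Ioc z (z + N)).filter Nat.Prime,
    ∀ D : Finset ℕ, 0 ∉ D → D.card = q → (cntD P D : ℝ) ≤ C * CT (pat D) * (N / Real.log N ^ (q + 1)) := by
  classical
  obtain ⟨C, hC, M₀, hup⟩ := Pool.Agent.J4.H57.QP.upper (q + 1) (by omega)
  refine ⟨C, hC, max M₀ (q + 3), fun z N hN hNz P hP D h0 hD => ?_⟩
  have hM : M₀ ≤ N := (le_max_left _ _).trans hN
  have hq : q + 3 ≤ N := (le_max_right _ _).trans hN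
  have hL : 0 < Real.log N := Real.log_pos (by exact_mod_cast (by omega : 1 < N))
  have hc : (pat D).card = q + 1 := by rw [card_pat h0, hD]
  obtain ⟨Q, hQ⟩ : ∃ Q : ℕ → Prop, Q = fun p => p ∈ P ∧ ∀ d ∈ D, p + d ∈ P := ⟨_, rfl⟩
  have hPm : ∀ p ∈ P, z < p ∧ p ≤ z + N ∧ p.Prime := by
    intro p hp
    have h1 := mem_filter.1 (hP hp)
    have h2 := mem_Ioc.1 h1.1
    exact ⟨h2.1, h2.2, h1.2⟩
  have hprime : ∀ m, Q m → ∀ t ∈ pat D, (m + t).Prime ∧ z < m + t := by
    intro m hm t ht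
    rw [hQ] at hm
    unfold pat at ht
    rcases mem_insert.1 ht with rfl | ht
    · exact ⟨(hPm m hm.1).2.2, (hPm m hm.1).1⟩
    · have h1 := hPm _ (hm.2 t ht)
      exact ⟨h1.2.2, h1.1⟩
  have hcard : cntD P D = ((Icc (z + 1) (z + N)).filter Q).card := by
    unfold cntD
    congr 1
    ext p
    rw [mem_filter, mem_filter, mem_Icc, hQ]
    constructor
    · rintro ⟨h1, h2⟩
      have := hPm p h1
      exact ⟨by omega, h1, h2⟩
    · rintro ⟨_, h1, h2⟩
      exact ⟨h1, h2⟩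
  rw [hcard]
  by_cases hA : Adm (pat D)
  · refine hup N z (pat D) Q hM hc hA fun m _ _ hQm t ht l hl hl8 hdvd => ?_
    obtain ⟨h1, h2⟩ := hprime m hQm t ht
    have h3 : l = m + t := (Nat.prime_dvd_prime_iff_eq hl h1).1 hdvd
    have h4 : l ≤ l ^ 8 := Nat.le_self_pow (by norm_num) _
    omega
  · have hempty : (Icc (z + 1) (z + N)).filter Q = ∅ := by
      rw [filter_eq_empty_iff]
      intro m _ hQm
      apply hA
      intro l hl
      by_contra hcon
      rw [not_lt] at hcon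
      have hle := Pool.Agent.Y822.nuT_le_card (pat D) l
      have hsurj : (pat D).image (· % l) = range l := by
        apply eq_of_subset_of_card_le
        · intro r hr
          obtain ⟨t, _, rfl⟩ := mem_image.1 hr
          exact mem_range.2 (Nat.mod_lt _ hl.pos)
        · rw [card_range]
          exact hcon
      have hmem : (l - m % l) % l ∈ (pat D).image (· % l) := by
        rw [hsurj, mem_range]
        exact Nat.mod_lt _ hl.pos
      obtain ⟨t, ht, hte⟩ := mem_image.1 hmem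
      have hdvd : l ∣ m + t := by
        have h5 : m + t ≡ m % l + (l - m % l) [MOD l] := by
          refine Nat.ModEq.add (Nat.mod_modEq m l).symm ?_
          exact hte
        have h6 : m % l + (l - m % l) = l := by
          have := Nat.mod_lt m hl.pos
          omega
        rw [h6] at h5
        exact (Nat.modEq_zero_iff_dvd).1 (h5.trans (by simp [Nat.ModEq]))
      obtain ⟨h1, h2⟩ := hprime m hQm t ht
      have h3 : l = m + t := (Nat.prime_dvd_prime_iff_eq hl h1).1 hdvd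
      omega
    rw [hempty, card_empty, Nat.cast_zero]
    have := CT_nonneg (pat D)
    positivity

/-- from the first and the second moment to a positive proportion -/
lemma many_sets {q H : ℕ} {g ct : Finset ℕ → ℝ} {E C C2 X : ℝ} (hE : 0 < E) (hC : 0 < C) (hC2 : 0 < C2) (hX : 0 < X)
    (hg : ∀ D ∈ (Icc 1 H).powersetCard q, 0 ≤ g D ∧ g D ≤ C * ct D * X)
    (h1 : E * X * (H : ℝ) ^ q ≤ ∑ D ∈ (Icc 1 H).powersetCard q, g D)
    (h2 : ∑ D ∈ (Icc 1 H).powersetCard q, ct D ^ 2 ≤ C2 * (H : ℝ) ^ q) :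
    E ^ 2 / (4 * C ^ 2 * C2) * (H : ℝ) ^ q ≤
      ((((Icc 1 H).powersetCard q).filter (fun D => E / 2 * X ≤ g D)).card : ℝ) := by
  classical
  obtain ⟨A, hA⟩ : ∃ A, A = (Icc 1 H).powersetCard q := ⟨_, rfl⟩
  rw [← hA] at hg h1 h2 ⊢
  have hAc : (A.card : ℝ) ≤ (H : ℝ) ^ q := by
    rw [hA, card_powersetCard, Nat.card_Icc, Nat.add_sub_cancel]
    exact_mod_cast Nat.choose_le_pow H q
  obtain ⟨S, hS⟩ : ∃ S, S = A.filter (fun D => E / 2 * X ≤ g D) := ⟨_, rfl⟩
  rw [← hS]
  have h3 : ∑ D ∈ A.filter (fun D => ¬ E / 2 * X ≤ g D), g D ≤ E / 2 * X * (H : ℝ) ^ q := by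
    calc ∑ D ∈ A.filter (fun D => ¬ E / 2 * X ≤ g D), g D ≤
          ∑ _D ∈ A.filter (fun D => ¬ E / 2 * X ≤ g D), E / 2 * X :=
          sum_le_sum fun D hD => (not_le.1 (mem_filter.1 hD).2).le
      _ = ((A.filter (fun D => ¬ E / 2 * X ≤ g D)).card : ℝ) * (E / 2 * X) := by rw [sum_const, nsmul_eq_mul]
      _ ≤ (H : ℝ) ^ q * (E / 2 * X) := by
          refine mul_le_mul_of_nonneg_right ?_ (by positivity)
          refine le_trans ?_ hAc
          exact_mod_cast card_le_card (filter_subset _ _)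
      _ = E / 2 * X * (H : ℝ) ^ q := by ring
  have h4 : E / 2 * X * (H : ℝ) ^ q ≤ ∑ D ∈ S, g D := by
    have h5 := sum_filter_add_sum_filter_not A (fun D => E / 2 * X ≤ g D) g
    rw [← hS] at h5
    linarith
  have h5 : (∑ D ∈ S, g D) ^ 2 ≤ S.card * ∑ D ∈ S, g D ^ 2 := sq_sum_le_card_mul_sum_sq
  have h6 : ∑ D ∈ S, g D ^ 2 ≤ C ^ 2 * X ^ 2 * (C2 * (H : ℝ) ^ q) := by
    calc ∑ D ∈ S, g D ^ 2 ≤ ∑ D ∈ A, g D ^ 2 := by
          rw [hS]
          exact sum_le_sum_of_subset_of_nonneg (filter_subset _ _) fun _ _ _ => sq_nonneg _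
      _ ≤ ∑ D ∈ A, C ^ 2 * X ^ 2 * ct D ^ 2 := by
          refine sum_le_sum fun D hD => ?_
          have h7 := hg D hD
          calc g D ^ 2 ≤ (C * ct D * X) ^ 2 := pow_le_pow_left₀ h7.1 h7.2 2
            _ = C ^ 2 * X ^ 2 * ct D ^ 2 := by ring
      _ = C ^ 2 * X ^ 2 * ∑ D ∈ A, ct D ^ 2 := by rw [mul_sum]
      _ ≤ _ := mul_le_mul_of_nonneg_left h2 (by positivity)
  have h0 : 0 ≤ E / 2 * X * (H : ℝ) ^ q := by positivity
  have h7 : (E / 2 * X * (H : ℝ) ^ q) ^ 2 ≤ S.card * (C ^ 2 * X ^ 2 * (C2 * (H : ℝ) ^ q)) := by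
    calc (E / 2 * X * (H : ℝ) ^ q) ^ 2 ≤ (∑ D ∈ S, g D) ^ 2 := pow_le_pow_left₀ h0 h4 2
      _ ≤ S.card * ∑ D ∈ S, g D ^ 2 := h5
      _ ≤ _ := mul_le_mul_of_nonneg_left h6 (Nat.cast_nonneg _)
  rcases (show (0 : ℝ) ≤ (H : ℝ) ^ q by positivity).eq_or_lt with hH | hH
  · rw [← hH, mul_zero]
    exact Nat.cast_nonneg _
  have h8 : E ^ 2 * (H : ℝ) ^ q * (X ^ 2 * (H : ℝ) ^ q) ≤ (S.card * (4 * C ^ 2 * C2)) * (X ^ 2 * (H : ℝ) ^ q) := by
    nlinarith [h7]
  have h9 := le_of_mul_le_mul_right h8 (by positivity)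
  rw [div_mul_eq_mul_div, div_le_iff₀ (by positivity)]
  exact h9

lemma choose_low {q K : ℕ} (hq : 1 ≤ q) (hK : 2 * q ≤ K) : ((K : ℝ) / (2 * q)) ^ q ≤ K.choose q := by
  have h1 := Nat.pow_le_choose (α := ℝ) q K
  refine le_trans ?_ h1
  have hqr : (0 : ℝ) < q := by exact_mod_cast hq
  have h2 : ((q.factorial : ℕ) : ℝ) ≤ (q : ℝ) ^ q := by exact_mod_cast Nat.factorial_le_pow q
  have h3 : ((K : ℝ) / 2) ^ q ≤ ((K + 1 - q : ℕ) : ℝ) ^ q := by
    refine pow_le_pow_left₀ (by positivity) ?_ q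
    rw [Nat.cast_sub (by omega)]
    push_cast
    have h4 : 2 * (q : ℝ) ≤ K := by exact_mod_cast hK
    linarith
  calc ((K : ℝ) / (2 * q)) ^ q = ((K : ℝ) / 2) ^ q / (q : ℝ) ^ q := by
        rw [← div_pow, div_div]
    _ ≤ ((K + 1 - q : ℕ) : ℝ) ^ q / (q : ℝ) ^ q := div_le_div_of_nonneg_right h3 (by positivity)
    _ ≤ ((K + 1 - q : ℕ) : ℝ) ^ q / ((q.factorial : ℕ) : ℝ) :=
        div_le_div_of_nonneg_left (by positivity) (by exact_mod_cast Nat.factorial_pos q) h2

/-- **tuples in dense sets of primes in short intervals** -/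
theorem dense_tuples (q : ℕ) (hq : 1 ≤ q) (δ : ℝ) (hδ : 0 < δ) : ∃ c Λ : ℝ, 0 < c ∧ 0 < Λ ∧ ∃ N₀ : ℕ, ∀ z N : ℕ, N₀ ≤ N →
    N ≤ z → ∀ P ⊆ (Ioc z (z + N)).filter Nat.Prime, δ * (N / Real.log N) ≤ P.card →
    ∀ H : ℕ, Λ * Real.log N ≤ H → H ≤ N →
    c * (H : ℝ) ^ q ≤ ((((Icc 1 H).powersetCard q).filter (fun D =>
      c * (N / Real.log N ^ (q + 1)) ≤ cntD P D)).card : ℝ) := by
  classical
  obtain ⟨C, hC, N₁, hup⟩ := cntD_le q
  obtain ⟨C2, hC2, hmom⟩ := Pool.Agent.J4.H38.SR.sum_CTm q 2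
  have hqr : (1 : ℝ) ≤ q := by exact_mod_cast hq
  obtain ⟨E, hE⟩ : ∃ E : ℝ, E = δ / 2 * (δ / (32 * q)) ^ q := ⟨_, rfl⟩
  have hE0 : 0 < E := by rw [hE]; positivity
  obtain ⟨c, hc⟩ : ∃ c : ℝ, c = min (E / 2) (E ^ 2 / (4 * C ^ 2 * C2)) := ⟨_, rfl⟩
  have hc0 : 0 < c := by rw [hc]; exact lt_min (by positivity) (by positivity)
  refine ⟨c, 32 * q / δ, hc0, by positivity, max N₁ 3, fun z N hN hNz P hP hPc H hH1 hH2 => ?_⟩
  have hN₁ : N₁ ≤ N := (le_max_left _ _).trans hN
  have hN3 : 3 ≤ N := (le_max_right _ _).trans hN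
  have hNr : (3 : ℝ) ≤ N := by exact_mod_cast hN3
  obtain ⟨L, hL⟩ : ∃ L : ℝ, L = Real.log N := ⟨_, rfl⟩
  rw [← hL] at hPc hH1 ⊢
  have hL1 : 1 ≤ L := by
    rw [hL, Real.le_log_iff_exp_le (by linarith)]
    have := Real.exp_one_lt_d9
    linarith
  have hL0 : 0 < L := by linarith
  have hHq : 32 * q * L ≤ δ * H := by
    have h1 : 32 * q / δ * L = 32 * q * L / δ := by ring
    rw [h1, div_le_iff₀ hδ] at hH1
    linarith
  have hHr : (0 : ℝ) < H := by
    by_contra hcon
    have h1 : (H : ℝ) = 0 := le_antisymm (not_lt.1 hcon) (Nat.cast_nonneg _)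
    rw [h1] at hHq
    have : 0 < 32 * (q : ℝ) * L := by positivity
    linarith
  have hH1' : 1 ≤ H := by exact_mod_cast hHr
  -- the number of elements behind a typical element
  obtain ⟨K, hK⟩ : ∃ K : ℕ, K = ⌊δ * H / (8 * L)⌋₊ := ⟨_, rfl⟩
  have hK1 : (K : ℝ) ≤ δ * H / (8 * L) := by rw [hK]; exact Nat.floor_le (by positivity)
  have hK2 : δ * H / (8 * L) < K + 1 := by rw [hK]; exact Nat.lt_floor_add_one _
  have hK3 : 4 * (q : ℝ) ≤ δ * H / (8 * L) := by
    rw [le_div_iff₀ (by positivity)]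
    linarith
  have hK4 : δ * H / (16 * L) ≤ K := by
    have h1 : δ * H / (16 * L) = δ * H / (8 * L) / 2 := by field_simp; norm_num
    rw [h1]
    linarith
  have hKq : 2 * q ≤ K := by
    have h1 : (2 : ℝ) * q < K + 1 := by linarith
    have h2 : 2 * q < K + 1 := by exact_mod_cast h1
    omega
  have hP' : P ⊆ Ioc z (z + N) := hP.trans (filter_subset _ _)
  have hfew := few_lonely hP' hH1' K
  have hfewr : ((P.filter (fun p => (nxt P H p).card < K)).card : ℝ) ≤ P.card / 2 := by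
    have h1 : ((P.filter (fun p => (nxt P H p).card < K)).card : ℝ) ≤ K * (N / H + 1) := by
      have h2 : ((P.filter (fun p => (nxt P H p).card < K)).card : ℝ) ≤ ((K * (N / H + 1) : ℕ) : ℝ) := by
        exact_mod_cast hfew
      refine h2.trans ?_
      push_cast
      refine mul_le_mul_of_nonneg_left ?_ (Nat.cast_nonneg _)
      have := Nat.cast_div_le (α := ℝ) (m := N) (n := H)
      linarith
    refine h1.trans ?_
    have h3 : (N : ℝ) / H + 1 ≤ 2 * (N / H) := by
      have h4 : 1 ≤ (N : ℝ) / H := by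
        rw [le_div_iff₀ hHr, one_mul]
        exact_mod_cast hH2
      linarith
    calc (K : ℝ) * (N / H + 1) ≤ (δ * H / (8 * L)) * (2 * (N / H)) := mul_le_mul hK1 h3 (by positivity) (by positivity)
      _ = δ * (N / L) / 4 := by field_simp; norm_num
      _ ≤ P.card / 2 := by
          have : 0 ≤ (P.card : ℝ) := Nat.cast_nonneg _
          linarith
  have hgood : (P.card : ℝ) / 2 ≤ ((P.filter (fun p => ¬ (nxt P H p).card < K)).card : ℝ) := by
    have h1 : P.card = (P.filter (fun p => (nxt P H p).card < K)).card +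
        (P.filter (fun p => ¬ (nxt P H p).card < K)).card := (card_filter_add_card_filter_not _).symm
    have h2 : (P.card : ℝ) = (P.filter (fun p => (nxt P H p).card < K)).card +
        (P.filter (fun p => ¬ (nxt P H p).card < K)).card := by exact_mod_cast h1
    linarith
  obtain ⟨X, hX⟩ : ∃ X : ℝ, X = N / L ^ (q + 1) := ⟨_, rfl⟩
  have hX0 : 0 < X := by rw [hX]; positivity
  have hsum : E * X * (H : ℝ) ^ q ≤ ∑ D ∈ (Icc 1 H).powersetCard q, (cntD P D : ℝ) := by
    have h1 : ∑ D ∈ (Icc 1 H).powersetCard q, (cntD P D : ℝ) = ∑ p ∈ P, (((nxt P H p).card.choose q : ℕ) : ℝ) := by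
      exact_mod_cast sum_cntD P H q
    rw [h1]
    have h2 : (P.card : ℝ) / 2 * (δ * H / (16 * L) / (2 * q)) ^ q ≤ ∑ p ∈ P, (((nxt P H p).card.choose q : ℕ) : ℝ) := by
      have hKc : (δ * H / (16 * L) / (2 * q)) ^ q ≤ (K.choose q : ℝ) := by
        have h3 := choose_low hq hKq
        exact (pow_le_pow_left₀ (by positivity) (div_le_div_of_nonneg_right hK4 (by positivity)) q).trans h3
      calc (P.card : ℝ) / 2 * (δ * H / (16 * L) / (2 * q)) ^ q ≤
            ((P.filter (fun p => ¬ (nxt P H p).card < K)).card : ℝ) * (K.choose q : ℝ) :=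
            mul_le_mul hgood hKc (by positivity) (Nat.cast_nonneg _)
        _ = ∑ _p ∈ P.filter (fun p => ¬ (nxt P H p).card < K), (K.choose q : ℝ) := by rw [sum_const, nsmul_eq_mul]
        _ ≤ ∑ p ∈ P.filter (fun p => ¬ (nxt P H p).card < K), (((nxt P H p).card.choose q : ℕ) : ℝ) := by
            refine sum_le_sum fun p hp => ?_
            exact_mod_cast Nat.choose_le_choose q (not_lt.1 (mem_filter.1 hp).2)
        _ ≤ _ := sum_le_sum_of_subset_of_nonneg (filter_subset _ _) fun _ _ _ => Nat.cast_nonneg _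
    refine le_trans ?_ h2
    have h3 : E * X * (H : ℝ) ^ q = δ * (N / L) / 2 * (δ * H / (16 * L) / (2 * q)) ^ q := by
      rw [hE, hX, div_div, div_pow, div_pow, mul_pow, mul_pow, mul_pow, mul_pow, pow_succ L q]
      field_simp
      rw [← mul_pow, ← mul_pow]
      congr 1
      ring
    rw [h3]
    exact mul_le_mul_of_nonneg_right (by linarith) (by positivity)
  have hfin := many_sets (q := q) (H := H) (g := fun D => (cntD P D : ℝ)) (ct := fun D => CT (pat D)) hE0 hC hC2 hX0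
    (fun D hD => ?_) hsum (hmom H)
  · rw [← hX]
    have h1 : ((Icc 1 H).powersetCard q).filter (fun D => E / 2 * X ≤ (cntD P D : ℝ)) ⊆
        ((Icc 1 H).powersetCard q).filter (fun D => c * X ≤ (cntD P D : ℝ)) := by
      intro D hD
      rw [mem_filter] at hD ⊢
      refine ⟨hD.1, le_trans ?_ hD.2⟩
      exact mul_le_mul_of_nonneg_right (by rw [hc]; exact min_le_left _ _) hX0.le
    calc c * (H : ℝ) ^ q ≤ E ^ 2 / (4 * C ^ 2 * C2) * (H : ℝ) ^ q :=
          mul_le_mul_of_nonneg_right (by rw [hc]; exact min_le_right _ _) (by positivity)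
      _ ≤ _ := hfin
      _ ≤ _ := by exact_mod_cast card_le_card h1
  · rw [mem_powersetCard] at hD
    have h0 : 0 ∉ D := by
      intro h
      have := mem_Icc.1 (hD.1 h)
      omega
    have h1 := hup z N hN₁ hNz P hP D h0 hD.2
    rw [← hL, ← hX] at h1
    exact ⟨Nat.cast_nonneg _, h1⟩

end Pool.Agent.J4.H57.DS
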