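import Mathlib
import Pool.Agent.J4.H57.DS.Pat

/-! Tuples of consecutive elements of dense sets of primes in EVERY short interval, for a positive proportion of all
patterns of the size of the mean gap. -/

set_option autoImplicit false

namespace Pool.Agent.J4.H57.DS

open Finset Filter
open Pool.Agent.Y822 (pat card_pat)
open Pool.Agent.H387R2.Uni (nuT Adm locT CT CT_nonneg)

/-- the number of the `p ∈ P` for which `p` and the `p + d`, `d ∈ D`, are consecutive elements of `P` -/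
def conD (P D : Finset ℕ) : ℕ :=
  (P.filter (fun p => (∀ d ∈ D, p + d ∈ P) ∧ ∀ r ∈ P, ∀ d ∈ D, p < r → r < p + d → r - p ∈ D)).card

lemma conD_le (P D : Finset ℕ) : conD P D ≤ cntD P D := by
  unfold conD cntD
  refine card_le_card fun p hp => ?_
  rw [mem_filter] at hp ⊢
  exact ⟨hp.1, hp.2.1⟩

lemma initial (S : Finset ℕ) (q : ℕ) (hq : q ≤ S.card) :
    ∃ D ⊆ S, D.card = q ∧ ∀ x ∈ S, ∀ y ∈ D, x < y → x ∈ D := by
  classical
  induction q with
  | zero => exact ⟨∅, empty_subset _, card_empty, fun _ _ y hy => absurd hy (notMem_empty y)⟩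
  | succ q ih =>
    obtain ⟨D, hDS, hDc, hD⟩ := ih (by omega)
    have hne : (S \ D).Nonempty := by
      rw [sdiff_nonempty]
      intro h
      have := card_le_card h
      omega
    obtain ⟨m, hm, hmin⟩ := exists_min_image (S \ D) id hne
    simp only [id] at hmin
    rw [Finset.mem_sdiff] at hm
    refine ⟨insert m D, insert_subset hm.1 hDS, by rw [card_insert_of_notMem hm.2, hDc], fun x hx y hy hxy => ?_⟩
    rcases mem_insert.1 hy with rfl | hy
    · by_contra hxD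
      have h1 : x ∉ D := fun h => hxD (mem_insert_of_mem h)
      have h2 := hmin x (Finset.mem_sdiff.2 ⟨hx, h1⟩)
      omega
    · exact mem_insert_of_mem (hD x hx y hy hxy)

lemma sum_conD (P : Finset ℕ) (H q : ℕ) :
    (P.filter (fun p => ¬ (nxt P H p).card < q)).card ≤ ∑ D ∈ (Icc 1 H).powersetCard q, conD P D := by
  classical
  unfold conD
  refine le_trans (card_le_card fun p hp => ?_) card_biUnion_le
  rw [mem_filter, not_lt] at hp
  obtain ⟨D, hDS, hDc, hD⟩ := initial (nxt P H p) q hp.2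
  rw [mem_biUnion]
  refine ⟨D, ?_, ?_⟩
  · rw [mem_powersetCard]
    exact ⟨fun d hd => (mem_filter.1 (hDS hd)).1, hDc⟩
  · rw [mem_filter]
    refine ⟨hp.1, fun d hd => (mem_filter.1 (hDS hd)).2, fun r hr d hd h1 h2 => ?_⟩
    have h3 := mem_Icc.1 (mem_filter.1 (hDS hd)).1
    refine hD (r - p) ?_ d hd (by omega)
    unfold nxt
    rw [mem_filter, mem_Icc, Nat.add_sub_cancel' h1.le]
    exact ⟨⟨by omega, by omega⟩, hr⟩

/-- **consecutive elements of dense sets of primes in short intervals** -/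
theorem dense_consecutive (q : ℕ) (hq : 1 ≤ q) (δ : ℝ) (hδ : 0 < δ) : ∃ Λ : ℝ, 0 < Λ ∧ ∀ Λ' : ℝ, ∃ c : ℝ, 0 < c ∧
    ∃ N₀ : ℕ, ∀ z N : ℕ, N₀ ≤ N → N ≤ z → ∀ P ⊆ (Ioc z (z + N)).filter Nat.Prime, δ * (N / Real.log N) ≤ P.card →
    ∀ H : ℕ, Λ * Real.log N ≤ H → (H : ℝ) ≤ Λ' * Real.log N →
    c * (H : ℝ) ^ q ≤ ((((Icc 1 H).powersetCard q).filter (fun D =>
      c * (N / Real.log N ^ (q + 1)) ≤ conD P D)).card : ℝ) := by
  classical
  obtain ⟨C, hC, N₁, hup⟩ := cntD_le q
  obtain ⟨C2, hC2, hmom⟩ := Pool.Agent.J4.H38.SR.sum_CTm q 2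
  have hqr : (1 : ℝ) ≤ q := by exact_mod_cast hq
  refine ⟨4 * q / δ, by positivity, fun Λ₀ => ?_⟩
  obtain ⟨Λ', hΛ'⟩ : ∃ Λ' : ℝ, Λ' = max Λ₀ 1 := ⟨_, rfl⟩
  have hΛ'1 : 1 ≤ Λ' := by rw [hΛ']; exact le_max_right _ _
  have hΛ'0 : 0 < Λ' := by linarith
  obtain ⟨E, hE⟩ : ∃ E : ℝ, E = δ / 2 / Λ' ^ q := ⟨_, rfl⟩
  have hE0 : 0 < E := by rw [hE]; positivity
  obtain ⟨c, hc⟩ : ∃ c : ℝ, c = min (E / 2) (E ^ 2 / (4 * C ^ 2 * C2)) := ⟨_, rfl⟩
  have hc0 : 0 < c := by rw [hc]; exact lt_min (by positivity) (by positivity)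
  have hlo : ∀ᶠ N : ℕ in atTop, Λ' * Real.log N ≤ N := by
    have h1 : Tendsto (fun x : ℝ => Real.log x / x) atTop (nhds 0) := Real.isLittleO_log_id_atTop.tendsto_div_nhds_zero
    have h2 := (h1.comp (tendsto_natCast_atTop_atTop (R := ℝ))).eventually_lt
      (tendsto_const_nhds (x := 1 / Λ')) (by positivity)
    filter_upwards [h2, eventually_ge_atTop 1] with N hN hN1
    have hN0 : (0 : ℝ) < N := by exact_mod_cast hN1
    simp only [Function.comp] at hN
    rw [div_lt_div_iff₀ hN0 hΛ'0] at hN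
    linarith
  obtain ⟨N₂, hN₂⟩ := eventually_atTop.1 hlo
  refine ⟨c, hc0, max (max N₁ N₂) 3, fun z N hN hNz P hP hPc H hH1 hH2' => ?_⟩
  have hN₁ : N₁ ≤ N := (le_max_left _ _).trans ((le_max_left _ _).trans hN)
  have hlN := hN₂ N ((le_max_right _ _).trans ((le_max_left _ _).trans hN))
  have hN3 : 3 ≤ N := (le_max_right _ _).trans hN
  have hNr : (3 : ℝ) ≤ N := by exact_mod_cast hN3
  obtain ⟨L, hL⟩ : ∃ L : ℝ, L = Real.log N := ⟨_, rfl⟩
  rw [← hL] at hPc hH1 hlN hH2' ⊢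
  have hL1 : 1 ≤ L := by
    rw [hL, Real.le_log_iff_exp_le (by linarith)]
    have := Real.exp_one_lt_d9
    linarith
  have hL0 : 0 < L := by linarith
  have hH2 : (H : ℝ) ≤ Λ' * L :=
    hH2'.trans (mul_le_mul_of_nonneg_right (by rw [hΛ']; exact le_max_left _ _) hL0.le)
  have hHN : H ≤ N := by exact_mod_cast hH2.trans hlN
  have hHq : 4 * q * L ≤ δ * H := by
    have h1 : 4 * q / δ * L = 4 * q * L / δ := by ring
    rw [h1, div_le_iff₀ hδ] at hH1
    linarith
  have hHr : (0 : ℝ) < H := by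
    by_contra hcon
    have h1 : (H : ℝ) = 0 := le_antisymm (not_lt.1 hcon) (Nat.cast_nonneg _)
    rw [h1] at hHq
    have : 0 < 4 * (q : ℝ) * L := by positivity
    linarith
  have hH1' : 1 ≤ H := by exact_mod_cast hHr
  have hP' : P ⊆ Ioc z (z + N) := hP.trans (filter_subset _ _)
  have hfew := few_lonely hP' hH1' q
  have hfewr : ((P.filter (fun p => (nxt P H p).card < q)).card : ℝ) ≤ P.card / 2 := by
    have h1 : ((P.filter (fun p => (nxt P H p).card < q)).card : ℝ) ≤ q * (N / H + 1) := by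
      have h2 : ((P.filter (fun p => (nxt P H p).card < q)).card : ℝ) ≤ ((q * (N / H + 1) : ℕ) : ℝ) := by
        exact_mod_cast hfew
      refine h2.trans ?_
      push_cast
      refine mul_le_mul_of_nonneg_left ?_ (Nat.cast_nonneg _)
      have := Nat.cast_div_le (α := ℝ) (m := N) (n := H)
      linarith
    refine h1.trans ?_
    have h3 : (N : ℝ) / H + 1 ≤ 2 * (N / H) := by
      have h4 : 1 ≤ (N : ℝ) / H := by
        rw [le_div_iff₀ hHr, one_mul]
        exact_mod_cast hHN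
      linarith
    have h5 : (q : ℝ) * (N / H + 1) ≤ q * (2 * (N / H)) := mul_le_mul_of_nonneg_left h3 (by positivity)
    refine h5.trans ?_
    have h6 : (q : ℝ) * (2 * (N / H)) ≤ δ * (N / L) / 2 := by
      rw [div_eq_mul_inv (N : ℝ) H, div_eq_mul_inv (N : ℝ) L]
      have h7 : 4 * q * (H : ℝ)⁻¹ ≤ δ * L⁻¹ := by
        rw [← div_eq_mul_inv, ← div_eq_mul_inv, div_le_div_iff₀ hHr hL0]
        exact hHq
      have h8 : (0 : ℝ) ≤ N := Nat.cast_nonneg _
      nlinarith
    linarith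
  have hgood : (P.card : ℝ) / 2 ≤ ((P.filter (fun p => ¬ (nxt P H p).card < q)).card : ℝ) := by
    have h1 : P.card = (P.filter (fun p => (nxt P H p).card < q)).card +
        (P.filter (fun p => ¬ (nxt P H p).card < q)).card := (card_filter_add_card_filter_not _).symm
    have h2 : (P.card : ℝ) = (P.filter (fun p => (nxt P H p).card < q)).card +
        (P.filter (fun p => ¬ (nxt P H p).card < q)).card := by exact_mod_cast h1
    linarith
  obtain ⟨X, hX⟩ : ∃ X : ℝ, X = N / L ^ (q + 1) := ⟨_, rfl⟩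
  have hX0 : 0 < X := by rw [hX]; positivity
  have hsum : E * X * (H : ℝ) ^ q ≤ ∑ D ∈ (Icc 1 H).powersetCard q, (conD P D : ℝ) := by
    have h1 : ((P.filter (fun p => ¬ (nxt P H p).card < q)).card : ℝ) ≤
        ∑ D ∈ (Icc 1 H).powersetCard q, (conD P D : ℝ) := by
      exact_mod_cast sum_conD P H q
    refine le_trans ?_ h1
    refine le_trans ?_ hgood
    have h2 : (H : ℝ) ^ q ≤ (Λ' * L) ^ q := pow_le_pow_left₀ hHr.le hH2 q
    calc E * X * (H : ℝ) ^ q ≤ E * X * (Λ' * L) ^ q := mul_le_mul_of_nonneg_left h2 (by positivity)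
      _ = δ * (N / L) / 2 := by
          rw [hE, hX, mul_pow, pow_succ L q]
          field_simp
      _ ≤ P.card / 2 := by linarith
  have hfin := many_sets (q := q) (H := H) (g := fun D => (conD P D : ℝ)) (ct := fun D => CT (pat D)) hE0 hC hC2 hX0
    (fun D hD => ?_) hsum (hmom H)
  · rw [← hX]
    have h1 : ((Icc 1 H).powersetCard q).filter (fun D => E / 2 * X ≤ (conD P D : ℝ)) ⊆
        ((Icc 1 H).powersetCard q).filter (fun D => c * X ≤ (conD P D : ℝ)) := by
      intro D hD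
      rw [mem_filter] at hD ⊢
      refine ⟨hD.1, le_trans ?_ hD.2⟩
      exact mul_le_mul_of_nonneg_right (by rw [hc]; exact min_le_left _ _) hX0.le
    calc c * (H : ℝ) ^ q ≤ E ^ 2 / (4 * C ^ 2 * C2) * (H : ℝ) ^ q :=
          mul_le_mul_of_nonneg_right (by rw [hc]; exact min_le_right _ _) (by positivity)
      _ ≤ _ := hfin
      _ ≤ _ := by exact_mod_cast card_le_card h1
  · rw [mem_powersetCard] at hD
    have h0 : 0 ∉ D := by
      intro h
      have := mem_Icc.1 (hD.1 h)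
      omega
    have h1 := hup z N hN₁ hNz P hP D h0 hD.2
    rw [← hL, ← hX] at h1
    refine ⟨Nat.cast_nonneg _, le_trans ?_ h1⟩
    exact_mod_cast conD_le P D

end Pool.Agent.J4.H57.DS
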