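import Mathlib
import Pool.Agent.Q278.KT.Fin

/-! The right order of magnitude of the number of primes in every interval `(z, z + N]`, `z ^ (13/20) ≤ N ≤ z / 3`, from the
starting theorem `Pool.Agent.Q278.KT.mainp_043` on intervals with few primes. -/

set_option autoImplicit false

namespace Pool.Agent.J4.H57.DS

open Finset Filter
open Pool.Agent.Q240.KS (pic MAINP)

lemma sum_pic (z h : ℝ) (hh : 0 ≤ h) (J : ℕ) :
    ∑ j ∈ range J, pic (z + j * h) h = ((Ioc ⌊z⌋₊ ⌊z + J * h⌋₊).filter Nat.Prime).card := by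
  classical
  induction J with
  | zero => simp
  | succ J ih =>
    rw [sum_range_succ, ih]
    unfold pic
    have e1 : z + (J : ℝ) * h + h = z + ((J + 1 : ℕ) : ℝ) * h := by push_cast; ring
    rw [e1]
    have h1 : ⌊z⌋₊ ≤ ⌊z + (J : ℝ) * h⌋₊ := Nat.floor_le_floor (by nlinarith [(Nat.cast_nonneg J : (0 : ℝ) ≤ J)])
    have h2 : ⌊z + (J : ℝ) * h⌋₊ ≤ ⌊z + ((J + 1 : ℕ) : ℝ) * h⌋₊ :=
      Nat.floor_le_floor (by push_cast; nlinarith)
    rw [← card_union_of_disjoint, ← filter_union]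
    · congr 2
      exact Ioc_union_Ioc_eq_Ioc h1 h2
    · rw [disjoint_left]
      intro p hp hp'
      rw [mem_filter, mem_Ioc] at hp hp'
      omega

/-- **primes in short intervals** -/
theorem primes_short : ∃ c : ℝ, 0 < c ∧ ∀ᶠ z : ℕ in atTop, ∀ N : ℕ, (z : ℝ) ^ (13 / 20 : ℝ) ≤ N → 3 * N ≤ z →
    c * (N / Real.log N) ≤ (((Ioc z (z + N)).filter Nat.Prime).card : ℝ) := by
  classical
  obtain ⟨c, η, Y₀, hc, hη, H⟩ := Pool.Agent.Q278.KT.mainp_043
  refine ⟨c / 8, by positivity, ?_⟩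
  have hlim : Tendsto (fun N : ℕ => Real.log (N : ℝ)) atTop atTop :=
    Real.tendsto_log_atTop.comp (tendsto_natCast_atTop_atTop (R := ℝ))
  filter_upwards [hlim.eventually_ge_atTop Y₀, hlim.eventually_ge_atTop 100, eventually_ge_atTop 3] with z h1 h2 h3
  intro N hN hN3
  obtain ⟨Y, hY⟩ : ∃ Y : ℝ, Y = Real.log z := ⟨_, rfl⟩
  rw [← hY] at h1 h2
  have hz0 : (0 : ℝ) < z := by exact_mod_cast (by omega : 0 < z)
  have hzY : (z : ℝ) = Real.exp Y := by rw [hY, Real.exp_log hz0]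
  have hY0 : 0 < Y := by linarith
  have hNY : Real.exp (0.65 * Y) ≤ N := by
    refine le_trans (le_of_eq ?_) hN
    rw [Real.rpow_def_of_pos hz0, ← hY]
    congr 1
    ring
  have hNY0 : (0 : ℝ) < N := lt_of_lt_of_le (Real.exp_pos _) hNY
  obtain ⟨h, hh⟩ : ∃ h : ℝ, h = Real.exp (0.57 * Y) := ⟨_, rfl⟩
  have hh0 : 0 < h := by rw [hh]; exact Real.exp_pos _
  have hh1 : Real.exp ((1 - 0.43 - η) * Y) ≤ h := by
    rw [hh, Real.exp_le_exp]
    nlinarith
  have hh2 : h ≤ Real.exp (0.9 * Y) := by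
    rw [hh, Real.exp_le_exp]
    nlinarith
  obtain ⟨J, hJ⟩ : ∃ J : ℕ, J = ⌊(N : ℝ) / h⌋₊ := ⟨_, rfl⟩
  have hJ1 : (J : ℝ) ≤ N / h := by rw [hJ]; exact Nat.floor_le (by positivity)
  have hJ2 : (N : ℝ) / h < J + 1 := by rw [hJ]; exact Nat.lt_floor_add_one _
  have hJh : (J : ℝ) * h ≤ N := by
    rw [le_div_iff₀ hh0] at hJ1
    exact hJ1
  have hNh : Real.exp (0.08 * Y) ≤ N / h := by
    rw [le_div_iff₀ hh0, hh, ← Real.exp_add]
    refine le_trans (le_of_eq ?_) hNY
    congr 1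
    ring
  have hY13 : (2 : ℝ) ≤ Real.exp (0.08 * Y) := by
    have := Real.add_one_le_exp (0.08 * Y)
    linarith
  have hJN : (N : ℝ) / h / 2 ≤ J := by linarith
  -- the poor intervals
  obtain ⟨U, hU⟩ : ∃ U : Finset ℕ, U = (range J).filter (fun j : ℕ => (pic ((z : ℝ) + j * h) h : ℝ) < c * h / Y) := ⟨_, rfl⟩
  have hinj : Function.Injective (fun j : ℕ => (z : ℝ) + j * h) := by
    intro a b hab
    have h4 : (a : ℝ) * h = b * h := by simpa using hab
    have h5 := mul_right_cancel₀ hh0.ne' h4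
    exact_mod_cast h5
  have hUc : (U.card : ℝ) ≤ Real.exp (0.045 * Y) := by
    have h4 := H Y h1 h hh1 hh2 (U.image (fun j : ℕ => (z : ℝ) + j * h)) ?_ ?_
    · rw [card_image_of_injective _ hinj] at h4
      refine h4.trans ?_
      rw [Real.exp_le_exp]
      nlinarith
    · intro y hy
      obtain ⟨j, hj, rfl⟩ := mem_image.1 hy
      rw [hU, mem_filter, mem_range] at hj
      have hj0 : (0 : ℝ) ≤ (j : ℝ) * h := by positivity
      have hjN : (j : ℝ) * h ≤ N := by
        have h5 : (j : ℝ) ≤ J := by exact_mod_cast hj.1.le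
        exact (mul_le_mul_of_nonneg_right h5 hh0.le).trans hJh
      refine ⟨by linarith, ?_, hj.2⟩
      have h5 : Real.log z ≤ Real.log ((z : ℝ) + j * h) := Real.log_le_log hz0 (by linarith)
      have h6 : Real.log ((z : ℝ) + j * h) ≤ Real.log z + 1 / 3 := by
        have h7 : (N : ℝ) ≤ z / 3 := by
          rw [le_div_iff₀ (by norm_num)]
          exact_mod_cast (by omega : N * 3 ≤ z)
        have h8 : (z : ℝ) + j * h ≤ z * Real.exp (1 / 3) := by
          have h9 := Real.add_one_le_exp (1 / 3 : ℝ)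
          nlinarith
        calc Real.log ((z : ℝ) + j * h) ≤ Real.log (z * Real.exp (1 / 3)) :=
              Real.log_le_log (by linarith) h8
          _ = Real.log z + 1 / 3 := by rw [Real.log_mul hz0.ne' (Real.exp_pos _).ne', Real.log_exp]
      rw [← hY] at h5 h6
      rw [abs_le]
      constructor <;> linarith
    · intro y hy y' hy' hne
      obtain ⟨j, _, rfl⟩ := mem_image.1 hy
      obtain ⟨j', _, rfl⟩ := mem_image.1 hy'
      have hjj : j ≠ j' := fun h => hne (by rw [h])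
      have h4 : (1 : ℝ) ≤ |(j : ℝ) - j'| := by
        have h5 : (1 : ℤ) ≤ |(j : ℤ) - j'| := by
          rw [← Int.ofNat_one]
          exact Int.one_le_abs (by omega)
        exact_mod_cast h5
      have h6 : (z : ℝ) + j * h - (z + j' * h) = (j - j') * h := by ring
      rw [h6, abs_mul, abs_of_pos hh0]
      nlinarith
  have hexp : Real.exp (0.045 * Y) ≤ (N : ℝ) / h / 4 := by
    have h4 : Real.exp (0.08 * Y) = Real.exp (0.045 * Y) * Real.exp (0.035 * Y) := by
      rw [← Real.exp_add]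
      congr 1
      ring
    have h5 : (4 : ℝ) ≤ Real.exp (0.035 * Y) := by
      have := Real.add_one_le_exp (0.035 * Y)
      linarith
    have h6 := Real.exp_pos (0.045 * Y)
    have h7 : Real.exp (0.045 * Y) * 4 ≤ Real.exp (0.08 * Y) := by
      rw [h4]
      exact mul_le_mul_of_nonneg_left h5 h6.le
    linarith
  have hgood : (N : ℝ) / h / 4 ≤ ((range J \ U).card : ℝ) := by
    have h4 : J ≤ (range J \ U).card + U.card := by
      have := le_card_sdiff U (range J)
      rw [card_range] at this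
      omega
    have h5 : (J : ℝ) ≤ (range J \ U).card + U.card := by exact_mod_cast h4
    linarith
  have hsum : ((range J \ U).card : ℝ) * (c * h / Y) ≤ ∑ j ∈ range J, (pic ((z : ℝ) + j * h) h : ℝ) := by
    rw [← nsmul_eq_mul]
    refine le_trans (card_nsmul_le_sum _ _ _ fun j hj => ?_)
      (sum_le_sum_of_subset_of_nonneg sdiff_subset fun _ _ _ => Nat.cast_nonneg _)
    rw [Finset.mem_sdiff, hU, mem_filter] at hj
    by_contra hcon
    exact hj.2 ⟨hj.1, not_le.1 hcon⟩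
  have htot : ∑ j ∈ range J, (pic ((z : ℝ) + j * h) h : ℝ) ≤ (((Ioc z (z + N)).filter Nat.Prime).card : ℝ) := by
    have h4 := sum_pic (z : ℝ) h hh0.le J
    have h5 : ∑ j ∈ range J, (pic ((z : ℝ) + j * h) h : ℝ) =
        (((Ioc ⌊(z : ℝ)⌋₊ ⌊(z : ℝ) + J * h⌋₊).filter Nat.Prime).card : ℝ) := by exact_mod_cast h4
    rw [h5, Nat.floor_natCast]
    have h6 : ⌊(z : ℝ) + J * h⌋₊ ≤ z + N := by
      have h7 : (z : ℝ) + J * h ≤ ((z + N : ℕ) : ℝ) := by
        push_cast
        linarith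
      exact (Nat.floor_le_floor h7).trans (Nat.floor_natCast _).le
    have h8 : (Ioc z ⌊(z : ℝ) + J * h⌋₊).filter Nat.Prime ⊆ (Ioc z (z + N)).filter Nat.Prime :=
      filter_subset_filter _ (Ioc_subset_Ioc_right h6)
    exact_mod_cast card_le_card h8
  refine le_trans ?_ (hsum.trans htot)
  have hlogN : 0.65 * Y ≤ Real.log N := by
    rw [← Real.log_exp (0.65 * Y)]
    exact Real.log_le_log (Real.exp_pos _) hNY
  have hlogN0 : 0 < Real.log N := by linarith
  have h4 : (N : ℝ) / h / 4 * (c * h / Y) ≤ ((range J \ U).card : ℝ) * (c * h / Y) :=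
    mul_le_mul_of_nonneg_right hgood (by positivity)
  refine le_trans ?_ h4
  have h5 : (N : ℝ) / h / 4 * (c * h / Y) = c / 4 * (N / Y) := by field_simp
  rw [h5]
  have h6 : (N : ℝ) / Real.log N ≤ 2 * (N / Y) := by
    rw [mul_div_assoc', div_le_div_iff₀ hlogN0 hY0]
    nlinarith
  calc c / 8 * ((N : ℝ) / Real.log N) ≤ c / 8 * (2 * (N / Y)) := mul_le_mul_of_nonneg_left h6 (by positivity)
    _ = c / 4 * (N / Y) := by ring

end Pool.Agent.J4.H57.DS
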