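import Mathlib
import Pool.Agent.J4.H57.DS.Asm
import Pool.Agent.J4.H57.DS.Hoh

/-! Dense sets of primes between all consecutive `j`-th powers, `j ≥ 4`. -/

set_option autoImplicit false

namespace Pool.Agent.J4.H57.DS

open Finset Filter
open Pool.Agent.H373R2.T7 (pz mem_pz)
open Pool.Agent.J4.H38.DV (AW)

/-- the integers between two `j`-th powers as an interval `(z, z + N]` -/
lemma interval (j : ℕ) (hj : 4 ≤ j) : ∃ n₀ : ℕ, 1 ≤ n₀ ∧ ∀ n : ℕ, n₀ ≤ n → ∀ H : ℕ, H ≤ n ^ (j - 1) →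
    ∃ N : ℕ, n ^ j + N + H + 1 = (n + 1) ^ j ∧ 2 * n ^ (j - 1) ≤ N ∧ 3 * N ≤ n ^ j ∧
      (N : ℝ) ≤ 2 * j * (n : ℝ) ^ (j - 1) ∧
      ((n ^ j + 2 * N : ℕ) : ℝ) ≤ (N : ℝ) ^ (4 / 3 : ℝ) := by
  refine ⟨4 * j, by omega, fun n hn H hH => ?_⟩
  obtain ⟨i, rfl⟩ : ∃ i, j = i + 1 := ⟨j - 1, by omega⟩
  rw [Nat.add_sub_cancel] at hH ⊢
  have hn1 : 1 ≤ n := by omega
  have hnr : (0 : ℝ) < n := by exact_mod_cast hn1
  have hpos : 1 ≤ n ^ i := Nat.one_le_pow _ _ hn1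
  have hsplit : ((n : ℝ) + 1) ^ (i + 1) = (n : ℝ) ^ (i + 1) * (1 + 1 / n) ^ (i + 1) := by
    rw [← mul_pow]
    congr 1
    field_simp
  have hbin : n ^ (i + 1) + (i + 1) * n ^ i ≤ (n + 1) ^ (i + 1) := by
    have h1 : (1 : ℝ) + (i + 1 : ℕ) * (1 / n) ≤ (1 + 1 / n) ^ (i + 1) :=
      one_add_mul_le_pow (by have : (0 : ℝ) ≤ 1 / n := by positivity
                             linarith) (i + 1)
    have h3 : (n : ℝ) ^ (i + 1) + (i + 1) * (n : ℝ) ^ i = (n : ℝ) ^ (i + 1) * (1 + (i + 1 : ℕ) * (1 / n)) := by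
      push_cast
      field_simp
      ring
    have h4 : (n : ℝ) ^ (i + 1) + (i + 1) * (n : ℝ) ^ i ≤ ((n : ℝ) + 1) ^ (i + 1) := by
      rw [hsplit, h3]
      exact mul_le_mul_of_nonneg_left h1 (by positivity)
    exact_mod_cast h4
  have h4 : 4 * n ^ i ≤ (i + 1) * n ^ i := Nat.mul_le_mul_right _ hj
  obtain ⟨N, hN⟩ : ∃ N, N = (n + 1) ^ (i + 1) - n ^ (i + 1) - H - 1 := ⟨_, rfl⟩
  have hN1 : n ^ (i + 1) + N + H + 1 = (n + 1) ^ (i + 1) := by omega
  have hN2 : 2 * n ^ i ≤ N := by omega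
  -- the upper bound
  have hx0 : (0 : ℝ) ≤ ((i + 1 : ℕ) : ℝ) * (1 / n) := by positivity
  have hx1 : ((i + 1 : ℕ) : ℝ) * (1 / n) ≤ 1 / 4 := by
    have h9 : 4 * ((i + 1 : ℕ) : ℝ) ≤ n := by exact_mod_cast hn
    rw [mul_one_div, div_le_iff₀ hnr]
    linarith
  have h5 : (1 + 1 / (n : ℝ)) ^ (i + 1) ≤ 1 + 4 / 3 * (((i + 1 : ℕ) : ℝ) * (1 / n)) := by
    have h6 : 1 + 1 / (n : ℝ) ≤ Real.exp (1 / n) := by
      have := Real.add_one_le_exp (1 / (n : ℝ))
      linarith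
    have h7 : (1 + 1 / (n : ℝ)) ^ (i + 1) ≤ Real.exp (((i + 1 : ℕ) : ℝ) * (1 / n)) := by
      rw [Real.exp_nat_mul]
      exact pow_le_pow_left₀ (by positivity) h6 _
    refine h7.trans ?_
    obtain ⟨x, hx⟩ : ∃ x : ℝ, x = ((i + 1 : ℕ) : ℝ) * (1 / n) := ⟨_, rfl⟩
    rw [← hx] at hx0 hx1 ⊢
    have h9 : 1 - x ≤ Real.exp (-x) := by
      have := Real.add_one_le_exp (-x)
      linarith
    have h10 : Real.exp x * Real.exp (-x) = 1 := by
      rw [← Real.exp_add]; norm_num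
    have h11 := Real.exp_pos x
    have h12 : Real.exp x * (1 - x) ≤ 1 := (mul_le_mul_of_nonneg_left h9 h11.le).trans h10.le
    have h13 : 1 ≤ (1 + 4 / 3 * x) * (1 - x) := by nlinarith
    have h14 : 0 < 1 - x := by linarith
    exact le_of_mul_le_mul_right (h12.trans h13) h14
  have hNr0 : (N : ℝ) ≤ 4 / 3 * ((i + 1 : ℕ) : ℝ) * (n : ℝ) ^ i := by
    have h12 : ((n ^ (i + 1) + N : ℕ) : ℝ) ≤ (((n + 1) ^ (i + 1) : ℕ) : ℝ) := by
      exact_mod_cast (by omega : n ^ (i + 1) + N ≤ (n + 1) ^ (i + 1))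
    push_cast at h12
    rw [hsplit] at h12
    have h13 : (n : ℝ) ^ (i + 1) * (1 + 1 / n) ^ (i + 1) ≤
        (n : ℝ) ^ (i + 1) * (1 + 4 / 3 * (((i + 1 : ℕ) : ℝ) * (1 / n))) :=
      mul_le_mul_of_nonneg_left h5 (by positivity)
    have h14 : (n : ℝ) ^ (i + 1) * (1 + 4 / 3 * (((i + 1 : ℕ) : ℝ) * (1 / n))) =
        (n : ℝ) ^ (i + 1) + 4 / 3 * ((i + 1 : ℕ) : ℝ) * (n : ℝ) ^ i := by
      rw [pow_succ]
      field_simp
    linarith
  have hni : (0 : ℝ) < (n : ℝ) ^ i := by positivity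
  have hNr : (N : ℝ) ≤ 1 / 3 * (n : ℝ) ^ (i + 1) := by
    refine hNr0.trans ?_
    have h9 : 4 * ((i + 1 : ℕ) : ℝ) ≤ n := by exact_mod_cast hn
    rw [pow_succ]
    nlinarith
  have hni' : (0 : ℝ) < (n : ℝ) ^ (i + 1) := by positivity
  refine ⟨N, hN1, hN2, ?_, ?_, ?_⟩
  · have h15 : (3 : ℝ) * N ≤ (n : ℝ) ^ (i + 1) := by linarith
    exact_mod_cast h15
  · refine hNr0.trans ?_
    have h16 : (0 : ℝ) ≤ ((i + 1 : ℕ) : ℝ) * (n : ℝ) ^ i := by positivity
    nlinarith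
  have h13 : ((n ^ (i + 1) + 2 * N : ℕ) : ℝ) ≤ 5 / 3 * (n : ℝ) ^ (i + 1) := by
    push_cast
    linarith
  refine h13.trans ?_
  have h14 : (2 * (n : ℝ) ^ i) ^ (4 / 3 : ℝ) ≤ (N : ℝ) ^ (4 / 3 : ℝ) := by
    refine Real.rpow_le_rpow (by positivity) ?_ (by norm_num)
    exact_mod_cast hN2
  refine le_trans ?_ h14
  rw [Real.mul_rpow (by norm_num) (by positivity)]
  have h15 : (n : ℝ) ^ (i + 1) ≤ ((n : ℝ) ^ i) ^ (4 / 3 : ℝ) := by
    rw [← Real.rpow_natCast, ← Real.rpow_natCast, ← Real.rpow_mul hnr.le]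
    refine Real.rpow_le_rpow_of_exponent_le (by exact_mod_cast hn1) ?_
    have h16 : (3 : ℝ) ≤ i := by exact_mod_cast (by omega : 3 ≤ i)
    push_cast
    linarith
  have h17 : (5 / 3 : ℝ) ≤ (2 : ℝ) ^ (4 / 3 : ℝ) := by
    have h18 : (2 : ℝ) ^ (1 : ℝ) ≤ (2 : ℝ) ^ (4 / 3 : ℝ) :=
      Real.rpow_le_rpow_of_exponent_le (by norm_num) (by norm_num)
    rw [Real.rpow_one] at h18
    linarith
  exact mul_le_mul h17 h15 hni'.le (by positivity)

/-- the right order of magnitude of the number of primes between consecutive `j`-th powers -/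
theorem primes_powers (j : ℕ) (hj : 4 ≤ j) : ∃ c : ℝ, 0 < c ∧ ∃ n₀ : ℕ, ∀ n : ℕ, n₀ ≤ n →
    c * ((n : ℝ) ^ (j - 1) / Real.log n) ≤ (((Ioo (n ^ j) ((n + 1) ^ j)).filter Nat.Prime).card : ℝ) := by
  classical
  obtain ⟨c, hc, hev⟩ := primes_short
  obtain ⟨z₀, hz₀⟩ := eventually_atTop.1 hev
  obtain ⟨n₁, hn₁, hint⟩ := interval j hj
  have hj0 : (0 : ℝ) < j := by exact_mod_cast (by omega : 0 < j)
  refine ⟨c / j, by positivity, max (max z₀ n₁) 3, fun n hn => ?_⟩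
  have hnz : z₀ ≤ n := (le_max_left _ _).trans ((le_max_left _ _).trans hn)
  have hnn : n₁ ≤ n := (le_max_right _ _).trans ((le_max_left _ _).trans hn)
  have hn3 : 3 ≤ n := (le_max_right _ _).trans hn
  obtain ⟨N, hN1, hN2, hN3, hN4, hN5⟩ := hint n hnn 0 (Nat.zero_le _)
  have hnr : (1 : ℝ) < n := by exact_mod_cast (by omega : 1 < n)
  have hn0 : (0 : ℝ) < n := by linarith
  have hzn : z₀ ≤ n ^ j := hnz.trans (Nat.le_self_pow (by omega) n)
  have h1 := hz₀ (n ^ j) hzn N ?_ hN3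
  · have h2 : (Ioc (n ^ j) (n ^ j + N)).filter Nat.Prime ⊆ (Ioo (n ^ j) ((n + 1) ^ j)).filter Nat.Prime := by
      intro p hp
      rw [mem_filter, mem_Ioc] at hp
      rw [mem_filter, mem_Ioo]
      exact ⟨⟨hp.1.1, by omega⟩, hp.2⟩
    have h3 : (((Ioc (n ^ j) (n ^ j + N)).filter Nat.Prime).card : ℝ) ≤
        (((Ioo (n ^ j) ((n + 1) ^ j)).filter Nat.Prime).card : ℝ) := by exact_mod_cast card_le_card h2
    refine le_trans ?_ (h1.trans h3)
    have hNr : (n : ℝ) ^ (j - 1) ≤ N := by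
      have : n ^ (j - 1) ≤ N := by omega
      exact_mod_cast this
    have hn1' : (3 : ℝ) ≤ (n : ℝ) ^ (j - 1) := by
      have h4 : (3 : ℝ) ≤ n := by exact_mod_cast hn3
      calc (3 : ℝ) ≤ n := h4
        _ = (n : ℝ) ^ 1 := (pow_one _).symm
        _ ≤ (n : ℝ) ^ (j - 1) := pow_le_pow_right₀ hnr.le (by omega)
    have hN0 : (0 : ℝ) < N := by linarith
    have hlN : Real.log N ≤ j * Real.log n := by
      rw [← Real.log_pow]
      refine Real.log_le_log hN0 ?_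
      have h5 : N ≤ n ^ j := by omega
      exact_mod_cast h5
    have hl0 : 0 < Real.log n := Real.log_pos hnr
    have hlN0 : 0 < Real.log N := Real.log_pos (by linarith)
    have h6 : (n : ℝ) ^ (j - 1) / Real.log n ≤ j * (N / Real.log N) := by
      rw [mul_div_assoc', div_le_div_iff₀ hl0 hlN0]
      calc (n : ℝ) ^ (j - 1) * Real.log N ≤ N * (j * Real.log n) := mul_le_mul hNr hlN hlN0.le hN0.le
        _ = j * N * Real.log n := by ring
    calc c / j * ((n : ℝ) ^ (j - 1) / Real.log n) ≤ c / j * (j * (N / Real.log N)) :=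
          mul_le_mul_of_nonneg_left h6 (by positivity)
      _ = c * (N / Real.log N) := by field_simp
  · push_cast
    rw [← Real.rpow_natCast, ← Real.rpow_mul hn0.le]
    have h7 : (n : ℝ) ^ ((j : ℝ) * (13 / 20)) ≤ (n : ℝ) ^ (((j - 1 : ℕ) : ℝ)) := by
      refine Real.rpow_le_rpow_of_exponent_le hnr.le ?_
      have h8 : (4 : ℝ) ≤ j := by exact_mod_cast hj
      rw [Nat.cast_sub (by omega)]
      push_cast
      linarith
    refine h7.trans ?_
    rw [Real.rpow_natCast]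
    have : n ^ (j - 1) ≤ N := by omega
    exact_mod_cast this

open Classical in
/-- the number of the elements `p` of `P` such that all `p + d`, `d ∈ D`, are smaller than `(n + 1) ^ j` and have at most three
prime factors, all of them at least `n ^ ((j - 1) / 8)` -/
noncomputable def cntP (j n : ℕ) (P D : Finset ℕ) : ℕ :=
  (P.filter (fun p => ∀ d ∈ D, p + d < (n + 1) ^ j ∧ (p + d).primeFactorsList.length ≤ 3 ∧
    ∀ q ∈ (p + d).primeFactors, (n : ℝ) ^ (((j : ℝ) - 1) / 8) ≤ q)).card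

/-- **dense sets of primes between all consecutive `j`-th powers** -/
theorem densePow (j : ℕ) (hj : 4 ≤ j) : ∃ c : ℝ, 0 < c ∧ ∀ (k : ℕ) (δ ε : ℝ), 1 ≤ k → 0 < δ → 0 < ε → ∃ w : ℕ, 2 ≤ w ∧
    ∃ (Λ : ℝ) (n₀ : ℕ), 0 < Λ ∧ ∀ n : ℕ, n₀ ≤ n → ∀ H : ℕ, Λ * Real.log n ≤ H → H * Real.log n ^ 2 ≤ (n : ℝ) ^ (j - 1) →
    ∀ P ⊆ (Ioo (n ^ j) ((n + 1) ^ j)).filter Nat.Prime, δ * ((n : ℝ) ^ (j - 1) / Real.log n) ≤ P.card →
    ∀ Bad : Finset (Finset ℕ), (∀ D ∈ Bad, D ∈ (AW w 0 H).powersetCard k ∧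
      (cntP j n P D : ℝ) < c ^ k * (P.card / Real.log n ^ k)) →
    (Bad.card : ℝ) ≤ ε * ((AW w 0 H).card : ℝ) ^ k := by
  classical
  obtain ⟨c, hc, hmain⟩ := denseS
  have hj0 : (0 : ℝ) < j := by exact_mod_cast (by omega : 0 < j)
  have hj1 : (1 : ℝ) ≤ j := by exact_mod_cast (by omega : 1 ≤ j)
  obtain ⟨n₁, hn₁, hint⟩ := interval j hj
  refine ⟨c / (2 * j), by positivity, fun k δ ε hk hδ hε => ?_⟩
  obtain ⟨k, rfl⟩ : ∃ i, k = i + 1 := ⟨k - 1, by omega⟩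
  obtain ⟨w, hw, Λ, hΛ, hev⟩ := hmain k (δ / (4 * j)) ε (by positivity) hε
  refine ⟨w, hw, ?_⟩
  obtain ⟨N₀, hN₀⟩ := eventually_atTop.1 hev
  have hlim : Tendsto (fun N : ℕ => Real.log (N : ℝ)) atTop atTop :=
    Real.tendsto_log_atTop.comp (tendsto_natCast_atTop_atTop (R := ℝ))
  obtain ⟨n₂, hn₂⟩ := eventually_atTop.1 (hlim.eventually_ge_atTop (max 1 (2 / δ)))
  refine ⟨j * Λ, max (max N₀ n₁) (max n₂ 3), by positivity, fun n hn H hH1 hH2 P hP hPc Bad hBad => ?_⟩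
  have hnN : N₀ ≤ n := (le_max_left _ _).trans ((le_max_left _ _).trans hn)
  have hnn : n₁ ≤ n := (le_max_right _ _).trans ((le_max_left _ _).trans hn)
  have hn3 : 3 ≤ n := (le_max_right _ _).trans ((le_max_right _ _).trans hn)
  have hlog := hn₂ n ((le_max_left _ _).trans ((le_max_right _ _).trans hn))
  obtain ⟨L, hL⟩ : ∃ L : ℝ, L = Real.log n := ⟨_, rfl⟩
  rw [← hL] at hlog hH1 hH2 hPc
  have hL1 : 1 ≤ L := (le_max_left _ _).trans hlog
  have hL0 : 0 < L := by linarith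
  have hLδ : 2 / δ ≤ L := (le_max_right _ _).trans hlog
  have hnr : (1 : ℝ) < n := by exact_mod_cast (by omega : 1 < n)
  have hn0 : (0 : ℝ) < n := by linarith
  obtain ⟨X, hX⟩ : ∃ X : ℝ, X = (n : ℝ) ^ (j - 1) := ⟨_, rfl⟩
  rw [← hX] at hH2 hPc
  have hX0 : 0 < X := by rw [hX]; positivity
  have hHX : (H : ℝ) ≤ X / L ^ 2 := by
    rw [le_div_iff₀ (by positivity)]
    exact hH2
  have hHn : H ≤ n ^ (j - 1) := by
    have h1 : (H : ℝ) ≤ ((n ^ (j - 1) : ℕ) : ℝ) := by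
      push_cast
      rw [← hX]
      refine hHX.trans (div_le_self hX0.le ?_)
      exact one_le_pow₀ hL1
    exact_mod_cast h1
  obtain ⟨N, hN1, hN2, hN3, hN4, hN5⟩ := hint n hnn H hHn
  rw [← hX] at hN4
  have hNX : X ≤ N := by
    rw [hX]
    have : n ^ (j - 1) ≤ N := by omega
    exact_mod_cast this
  have hNn : n ≤ N := by
    have h1 : n ≤ n ^ (j - 1) := Nat.le_self_pow (by omega) n
    omega
  have hNnr : (n : ℝ) ≤ N := by exact_mod_cast hNn
  have hN0 : (0 : ℝ) < N := by linarith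
  have hlN1 : L ≤ Real.log N := by rw [hL]; exact Real.log_le_log hn0 hNnr
  have hlN2 : Real.log N ≤ j * L := by
    rw [hL, ← Real.log_pow]
    refine Real.log_le_log hN0 ?_
    have h5 : N ≤ n ^ j := by omega
    exact_mod_cast h5
  have hlN0 : 0 < Real.log N := by linarith
  -- the part of `P` which is not close to the right end
  obtain ⟨P', hP'⟩ : ∃ P' : Finset ℕ, P' = P.filter (fun p => p ≤ n ^ j + N) := ⟨_, rfl⟩
  have hPm : ∀ p ∈ P, n ^ j < p ∧ p < (n + 1) ^ j ∧ p.Prime := by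
    intro p hp
    have h1 := mem_filter.1 (hP hp)
    have h2 := mem_Ioo.1 h1.1
    exact ⟨h2.1, h2.2, h1.2⟩
  have hP'sub : P' ⊆ (Ioc (n ^ j) (n ^ j + N)).filter Nat.Prime := by
    intro p hp
    rw [hP', mem_filter] at hp
    have h1 := hPm p hp.1
    rw [mem_filter, mem_Ioc]
    exact ⟨⟨h1.1, hp.2⟩, h1.2.2⟩
  have hP'c : (P.card : ℝ) / 2 ≤ P'.card := by
    have h1 : P.card = P'.card + (P.filter (fun p => ¬ p ≤ n ^ j + N)).card := by
      rw [hP']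
      exact (card_filter_add_card_filter_not _).symm
    have h2 : (P.filter (fun p => ¬ p ≤ n ^ j + N)).card ≤ H := by
      have h3 : P.filter (fun p => ¬ p ≤ n ^ j + N) ⊆ Ioo (n ^ j + N) ((n + 1) ^ j) := by
        intro p hp
        rw [mem_filter] at hp
        have h4 := hPm p hp.1
        rw [mem_Ioo]
        omega
      have h5 := card_le_card h3
      rw [Nat.card_Ioo] at h5
      omega
    have h3 : (P.card : ℝ) ≤ P'.card + H := by
      have : P.card ≤ P'.card + H := by omega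
      exact_mod_cast this
    have h4 : (H : ℝ) ≤ P.card / 2 := by
      refine hHX.trans ?_
      have h5 : X / L ^ 2 ≤ δ / 2 * (X / L) := by
        have h6 : X / L ^ 2 = (X / L) * (1 / L) := by field_simp
        rw [h6, mul_comm]
        refine mul_le_mul_of_nonneg_right ?_ (by positivity)
        rw [div_le_iff₀ hL0]
        rw [div_le_iff₀ hδ] at hLδ
        linarith
      linarith
    linarith
  have hP'd : δ / (4 * j) * (N / Real.log N) ≤ P'.card := by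
    refine le_trans ?_ hP'c
    have h1 : (N : ℝ) / Real.log N ≤ 2 * j * X / L := div_le_div₀ (by positivity) hN4 hL0 hlN1
    calc δ / (4 * j) * (N / Real.log N) ≤ δ / (4 * j) * (2 * j * X / L) :=
          mul_le_mul_of_nonneg_left h1 (by positivity)
      _ = δ * (X / L) / 2 := by field_simp; norm_num
      _ ≤ P.card / 2 := by linarith
  have hHN : H ≤ N := by omega
  have hH1' : Λ * Real.log N ≤ H := by
    calc Λ * Real.log N ≤ Λ * (j * L) := mul_le_mul_of_nonneg_left hlN2 hΛ.le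
      _ = j * Λ * L := by ring
      _ ≤ H := hH1
  have hNz : N ≤ n ^ j := by omega
  refine hN₀ N (hnN.trans hNn) (n ^ j) hNz hN5 H hH1' hHN P' hP'sub hP'd Bad fun D hD => ?_
  obtain ⟨b1, b2⟩ := hBad D hD
  refine ⟨b1, ?_⟩
  by_contra hcon
  rw [not_lt] at hcon
  have hDm : ∀ d ∈ D, d ≤ H := by
    intro d hd
    have h1 := (mem_powersetCard.1 b1).1 hd
    unfold AW at h1
    rw [mem_filter, mem_Icc] at h1
    exact h1.1.2
  have h1 : piS P' D N ≤ cntP j n P D := by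
    unfold piS cntP
    refine card_le_card fun p hp => ?_
    rw [mem_filter] at hp ⊢
    have h2 := mem_filter.1 (hP' ▸ hp.1)
    refine ⟨h2.1, fun d hd => ?_⟩
    have h3 := hDm d hd
    refine ⟨by omega, (hp.2 d hd).1, fun q hq => ?_⟩
    refine le_trans ?_ ((hp.2 d hd).2 q hq)
    have h4 : (n : ℝ) ^ (((j : ℝ) - 1) / 8) = ((n : ℝ) ^ (j - 1)) ^ (1 / 8 : ℝ) := by
      rw [← Real.rpow_natCast, ← Real.rpow_mul hn0.le]
      congr 1
      rw [Nat.cast_sub (by omega)]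
      push_cast
      ring
    rw [h4, ← hX]
    exact Real.rpow_le_rpow hX0.le hNX (by norm_num)
  have h2 : (cntP j n P D : ℝ) < piS P' D N := by
    refine b2.trans_le (le_trans ?_ hcon)
    rw [← hL]
    have h3 : P.card / 2 / (j * L) ^ (k + 1) ≤ (P'.card : ℝ) / Real.log N ^ (k + 1) :=
      div_le_div₀ (Nat.cast_nonneg _) hP'c (by positivity) (pow_le_pow_left₀ hlN0.le hlN2 _)
    have h4 : (c / (2 * j)) ^ (k + 1) * (P.card / L ^ (k + 1)) ≤
        c ^ (k + 1) * (P.card / 2 / (j * L) ^ (k + 1)) := by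
      have h5 : (c / (2 * j)) ^ (k + 1) * ((P.card : ℝ) / L ^ (k + 1)) =
          c ^ (k + 1) * (P.card / 2 ^ (k + 1) / (j * L) ^ (k + 1)) := by
        rw [div_pow, mul_pow, mul_pow]
        field_simp
      rw [h5]
      refine mul_le_mul_of_nonneg_left ?_ (by positivity)
      refine div_le_div_of_nonneg_right ?_ (by positivity)
      refine div_le_div_of_nonneg_left (Nat.cast_nonneg _) (by norm_num) ?_
      calc (2 : ℝ) = 2 ^ 1 := (pow_one _).symm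
        _ ≤ 2 ^ (k + 1) := pow_le_pow_right₀ (by norm_num) (by omega)
    exact h4.trans (mul_le_mul_of_nonneg_left h3 (by positivity))
  have h3 : (piS P' D N : ℝ) ≤ cntP j n P D := by exact_mod_cast h1
  linarith

end Pool.Agent.J4.H57.DS
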